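import Mathlib

set_option autoImplicit false

namespace Pool.Agent.P.MP_d0f95c_al

/-- The irreducible complex characters of a group. -/
def irrChars (H : Type) [Group H] : Set (H → ℂ) :=
  {χ | ∃ V : FDRep ℂ H, CategoryTheory.Simple V ∧ χ = V.character}

/-- The conjugate `n ↦ θ (g n g⁻¹)` of a function on a normal subgroup. -/
def conjBy {G : Type} [Group G] (N : Subgroup G) [hN : N.Normal] (θ : N → ℂ) (g : G) : N → ℂ :=
  fun n => θ ⟨g * n * g⁻¹, hN.conj_mem n n.2 g⟩

/-- The sum of the distinct conjugates of `θ`. -/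
noncomputable def orbitTotal {G : Type} [Group G] (N : Subgroup G) [N.Normal] (θ : N → ℂ) :
    N → ℂ :=
  ∑ᶠ ψ ∈ Set.range (conjBy N θ), ψ

/-- The set of degrees of the minimal invariant characters. -/
def mcdSet {G : Type} [Group G] (N : Subgroup G) [N.Normal] : Set ℂ :=
  {d | ∃ θ ∈ irrChars N, d = orbitTotal N θ 1}

end Pool.Agent.P.MP_d0f95c_al
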