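import Mathlib

set_option autoImplicit false

open Subgroup Module

namespace Pool.Agent.P.MP_d0f95c_al

open scoped Classical

variable {G : Type} [Group G] [Fintype G]

def IsChar (H : Subgroup G) (χ : G → ℂ) : Prop :=
  ∃ (V : Type) (_ : AddCommGroup V) (_ : Module ℂ V) (_ : FiniteDimensional ℂ V)
    (ρ : Representation ℂ H V), ∀ x : H, χ x = ρ.character x

def IsIrr (H : Subgroup G) (χ : G → ℂ) : Prop :=
  (∃ (V : Type) (_ : AddCommGroup V) (_ : Module ℂ V) (_ : FiniteDimensional ℂ V)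
    (ρ : Representation ℂ H V), ρ.IsIrreducible ∧ ∀ x : H, χ x = ρ.character x) ∧
  ∀ x, x ∉ H → χ x = 0

noncomputable def ip (H : Subgroup G) (χ ψ : G → ℂ) : ℂ :=
  (Nat.card H : ℂ)⁻¹ * ∑ x : H, χ x * ψ (x : G)⁻¹

def Scal (H : Subgroup G) (χ : G → ℂ) (x : G) (z : ℂ) : Prop :=
  ∀ y ∈ H, χ (x * y) = z * χ y

def Dec (H : Subgroup G) (χ : G → ℂ) (s : Multiset (G → ℂ)) : Prop :=
  (∀ ψ ∈ s, IsIrr H ψ) ∧ ∀ x ∈ H, χ x = (s.map (fun ψ => ψ x)).sum

noncomputable def deg (χ : G → ℂ) : ℕ := ⌊(χ 1).re⌋₊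

noncomputable def extz (H : Subgroup G) (φ : H → ℂ) : G → ℂ :=
  fun x => if h : x ∈ H then φ ⟨x, h⟩ else 0

omit [Fintype G] in
lemma extz_coe (H : Subgroup G) (φ : H → ℂ) (x : H) : extz H φ x = φ x := by
  simp [extz]

omit [Fintype G] in
lemma IsIrr.isChar {H : Subgroup G} {χ : G → ℂ} (h : IsIrr H χ) : IsChar H χ := by
  obtain ⟨⟨V, _, _, _, ρ, _, h⟩, _⟩ := h
  exact ⟨V, _, _, inferInstance, ρ, h⟩

omit [Fintype G] in
lemma IsChar.deg_eq {H : Subgroup G} {χ : G → ℂ} (h : IsChar H χ) : (deg χ : ℂ) = χ 1 := by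
  obtain ⟨V, _, _, _, ρ, h⟩ := h
  have := h 1
  simp only [OneMemClass.coe_one, Representation.char_one] at this
  simp [deg, this]

omit [Fintype G] in
lemma IsChar.mono {H M : Subgroup G} {χ : G → ℂ} (h : IsChar H χ) (hM : M ≤ H) : IsChar M χ := by
  obtain ⟨V, _, _, _, ρ, h⟩ := h
  exact ⟨V, _, _, inferInstance, ρ.comp (inclusion hM), fun x => h (inclusion hM x)⟩

omit [Fintype G] in
lemma IsChar.conj {H : Subgroup G} {χ : G → ℂ} (h : IsChar H χ) {x y : G} (hx : x ∈ H)
    (hy : y ∈ H) : χ (y * x * y⁻¹) = χ x := by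
  obtain ⟨V, _, _, _, ρ, h⟩ := h
  have := ρ.char_conj ⟨x, hx⟩ ⟨y, hy⟩
  rw [← h, ← h] at this
  exact this

omit [Fintype G] in
lemma isChar_one (H : Subgroup G) : IsChar H (fun _ => 1) :=
  ⟨ℂ, _, _, inferInstance, Representation.trivial ℂ H ℂ, fun x => by
    simp [Representation.character]⟩

lemma card_ne (H : Subgroup G) : (Nat.card H : ℂ) ≠ 0 := by
  exact_mod_cast (Nat.card_pos (α := H)).ne'

lemma ip_nat {H : Subgroup G} {χ ψ : G → ℂ} (h1 : IsChar H χ) (h2 : IsChar H ψ) :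
    ∃ n : ℕ, ip H χ ψ = n := by
  obtain ⟨V, _, _, _, ρ, h1⟩ := h1
  obtain ⟨W, _, _, _, σ, h2⟩ := h2
  let _ := invertibleOfNonzero (card_ne H)
  refine ⟨_, Eq.trans ?_ (Representation.card_inv_mul_sum_char_mul_char_eq_finrank σ ρ)⟩
  unfold ip
  congr 1
  apply Finset.sum_congr rfl
  intro x _
  rw [← h1, ← h2]; rfl

lemma ip_irr {H : Subgroup G} {χ ψ : G → ℂ} (h1 : IsIrr H χ) (h2 : IsIrr H ψ) :
    ip H χ ψ = if χ = ψ then 1 else 0 := by
  obtain ⟨⟨V, _, _, _, ρ, hρ, h1⟩, h1'⟩ := h1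
  obtain ⟨⟨W, _, _, _, σ, hσ, h2⟩, h2'⟩ := h2
  let _ := invertibleOfNonzero (card_ne H)
  split_ifs with h
  · subst h
    have := Representation.char_orthonormal ρ ρ
    rw [if_pos ⟨Representation.Equiv.refl ρ⟩] at this
    refine Eq.trans ?_ this
    unfold ip
    congr 1
    apply Finset.sum_congr rfl
    intro x _
    rw [← h1, ← h1]; rfl
  · have := Representation.char_orthonormal ρ σ
    rw [if_neg] at this
    · refine Eq.trans ?_ this
      unfold ip
      congr 1
      apply Finset.sum_congr rfl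
      intro x _
      rw [← h1, ← h2]; rfl
    · rintro ⟨e⟩
      apply h
      funext x
      by_cases hx : x ∈ H
      · rw [h1 ⟨x, hx⟩, h2 ⟨x, hx⟩, Representation.char_iso e]
      · rw [h1' x hx, h2' x hx]

omit [Fintype G] in
lemma IsIrr.deg_pos {H : Subgroup G} {χ : G → ℂ} (h : IsIrr H χ) : 0 < deg χ := by
  have h0 := h.isChar.deg_eq
  obtain ⟨⟨V, _, _, _, ρ, hρ, h⟩, _⟩ := h
  have h1 := h 1
  simp only [OneMemClass.coe_one, Representation.char_one] at h1
  rw [h1] at h0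
  have h2 : deg χ = finrank ℂ V := by exact_mod_cast h0
  rw [h2, finrank_pos_iff]
  by_contra hn
  rw [not_nontrivial_iff_subsingleton] at hn
  have : (⊥ : Subrepresentation ρ) = ⊤ := by
    apply Subrepresentation.toSubmodule_injective
    exact Subsingleton.elim _ _
  exact bot_ne_top this

omit [Fintype G] in
lemma IsIrr.one_ne {H : Subgroup G} {χ : G → ℂ} (h : IsIrr H χ) : χ 1 ≠ 0 := by
  rw [← h.isChar.deg_eq]
  exact_mod_cast h.deg_pos.ne'

lemma char_add {H V : Type} [Group H] [AddCommGroup V] [Module ℂ V] [FiniteDimensional ℂ V]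
    (ρ : Representation ℂ H V) (W W' : Subrepresentation ρ) (h : IsCompl W.toSubmodule W'.toSubmodule)
    (x : H) : ρ.character x = W.toRepresentation.character x + W'.toRepresentation.character x := by
  unfold Representation.character
  rw [← LinearMap.trace_prodMap', ← LinearMap.trace_conj' _ (Submodule.prodEquivOfIsCompl _ _ h)]
  congr 1
  apply LinearMap.ext
  intro v
  obtain ⟨⟨a, b⟩, rfl⟩ := (Submodule.prodEquivOfIsCompl _ _ h).surjective v
  simp [LinearEquiv.conj_apply, Subrepresentation.toRepresentation]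

lemma sub_scalar {H V : Type} [Group H] [Fintype H] [AddCommGroup V] [Module ℂ V]
    (ρ : Representation ℂ H V) (W : Subrepresentation ρ) (F : H → ℂ) (c : ℂ)
    (h : ∑ x, F x • ρ x = c • (1 : V →ₗ[ℂ] V)) :
    ∑ x, F x • W.toRepresentation x = c • (1 : W.toSubmodule →ₗ[ℂ] W.toSubmodule) := by
  apply LinearMap.ext
  intro v
  apply Subtype.ext
  have := LinearMap.congr_fun h v.1
  simpa [LinearMap.sum_apply, Subrepresentation.toRepresentation] using this

lemma decomp (H : Subgroup G) (n : ℕ) : ∀ (V : Type) [AddCommGroup V] [Module ℂ V]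
    [FiniteDimensional ℂ V] (ρ : Representation ℂ H V), finrank ℂ V = n →
    ∃ s : Multiset (G → ℂ), (∀ ψ ∈ s, IsIrr H ψ ∧ ∀ (F : H → ℂ) (c : ℂ),
      (∑ x, F x • ρ x = c • (1 : V →ₗ[ℂ] V)) → ∀ y : H, ∑ x, F x * ψ (x * y) = c * ψ y) ∧
      ∀ x : H, ρ.character x = (s.map (fun ψ => ψ x)).sum := by
  induction n using Nat.strong_induction_on with
  | _ n ih =>
    intro V _ _ _ ρ hn
    by_cases h0 : Nontrivial V
    swap
    · rw [not_nontrivial_iff_subsingleton] at h0
      refine ⟨0, by simp, fun x => ?_⟩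
      have : ρ x = 0 := Subsingleton.elim _ _
      simp [Representation.character, this]
    by_cases hirr : ρ.IsIrreducible
    · refine ⟨{extz H ρ.character}, ?_, fun x => by simp [extz_coe]⟩
      intro ψ hψ
      rw [Multiset.mem_singleton] at hψ
      subst hψ
      refine ⟨⟨⟨V, _, _, inferInstance, ρ, hirr, extz_coe H _⟩, fun x hx => by simp [extz, hx]⟩, ?_⟩
      intro F c h y
      have h2 := congrArg (fun T => LinearMap.trace ℂ V (T * ρ y)) h
      simp only [Finset.sum_mul, smul_mul_assoc, map_sum, map_smul, one_mul, smul_eq_mul] at h2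
      rw [extz_coe]
      refine Eq.trans ?_ h2
      apply Finset.sum_congr rfl
      intro x _
      rw [← Subgroup.coe_mul, extz_coe, ← map_mul]
      rfl
    · have hnt : Nontrivial (Subrepresentation ρ) := ⟨⊥, ⊤, fun h => by
        have := congrArg Subrepresentation.toSubmodule h
        exact bot_ne_top (α := Submodule ℂ V) this⟩
      have : ∃ W : Subrepresentation ρ, W ≠ ⊥ ∧ W ≠ ⊤ := by
        by_contra hc
        apply hirr
        refine ⟨fun W => ?_⟩
        by_contra hW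
        exact hc ⟨W, fun h => hW (Or.inl h), fun h => hW (Or.inr h)⟩
      obtain ⟨W, hW0, hW1⟩ := this
      have : NeZero (Nat.card H : ℂ) := ⟨card_ne H⟩
      obtain ⟨W', hc⟩ := exists_isCompl W
      have hc' : IsCompl W.toSubmodule W'.toSubmodule := by
        constructor
        · rw [disjoint_iff, ← Subrepresentation.toSubmodule_inf, hc.inf_eq_bot]; rfl
        · rw [codisjoint_iff, ← Subrepresentation.toSubmodule_sup, hc.sup_eq_top]; rfl
      have hW1' : W' ≠ ⊤ := by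
        rintro rfl
        exact hW0 (by simpa using hc.inf_eq_bot)
      have hlt : ∀ X : Subrepresentation ρ, X ≠ ⊤ → finrank ℂ X.toSubmodule < n := by
        intro X hX
        rw [← hn]
        apply Submodule.finrank_lt
        intro h
        exact hX (Subrepresentation.toSubmodule_injective h)
      obtain ⟨s, hs, hs'⟩ := ih _ (hlt W hW1) _ W.toRepresentation rfl
      obtain ⟨t, ht, ht'⟩ := ih _ (hlt W' hW1') _ W'.toRepresentation rfl
      refine ⟨s + t, ?_, fun x => ?_⟩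
      · intro ψ hψ
        rcases Multiset.mem_add.1 hψ with h | h
        · exact ⟨(hs ψ h).1, fun F c hF => (hs ψ h).2 F c (sub_scalar ρ W F c hF)⟩
        · exact ⟨(ht ψ h).1, fun F c hF => (ht ψ h).2 F c (sub_scalar ρ W' F c hF)⟩
      · rw [char_add ρ W W' hc', hs', ht']; simp

lemma IsChar.exists_dec {H : Subgroup G} {χ : G → ℂ} (h : IsChar H χ) : ∃ s, Dec H χ s := by
  obtain ⟨V, _, _, _, ρ, h⟩ := h
  obtain ⟨s, hs, hs'⟩ := decomp H _ V ρ rfl
  exact ⟨s, fun ψ hψ => (hs ψ hψ).1, fun x hx => (h ⟨x, hx⟩).trans (hs' ⟨x, hx⟩)⟩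

lemma ip_sum {H M : Subgroup G} (hM : M ≤ H) {χ : G → ℂ} {s : Multiset (G → ℂ)}
    (h : ∀ x ∈ H, χ x = (s.map (fun ψ => ψ x)).sum) (φ : G → ℂ) :
    ip M χ φ = (s.map (fun ψ => ip M ψ φ)).sum := by
  have e : ip M χ φ = (Nat.card M : ℂ)⁻¹ * ∑ x : M, (s.map (fun ψ => ψ x)).sum * φ (x : G)⁻¹ := by
    unfold ip
    congr 1
    apply Finset.sum_congr rfl
    intro x _
    rw [h x (hM x.2)]
  rw [e]
  clear e h
  induction s using Multiset.induction_on with
  | empty => simp
  | cons a s ih =>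
    simp only [Multiset.map_cons, Multiset.sum_cons, add_mul, Finset.sum_add_distrib, mul_add, ih]
    rfl

lemma Dec.count {H : Subgroup G} {χ : G → ℂ} {s : Multiset (G → ℂ)} (h : Dec H χ s)
    {φ : G → ℂ} (hφ : IsIrr H φ) : ip H χ φ = s.count φ := by
  rw [ip_sum le_rfl h.2]
  have h1 := h.1
  clear h
  induction s using Multiset.induction_on with
  | empty => simp
  | cons a s ih =>
    rw [Multiset.map_cons, Multiset.sum_cons, ih (fun ψ hψ => h1 ψ (Multiset.mem_cons_of_mem hψ)),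
      ip_irr (h1 a (Multiset.mem_cons_self _ _)) hφ, Multiset.count_cons]
    by_cases ha : a = φ
    · subst ha; simp [add_comm]
    · simp [ha, Ne.symm ha]

lemma Dec.mem_iff {H : Subgroup G} {χ : G → ℂ} {s : Multiset (G → ℂ)} (h : Dec H χ s)
    {φ : G → ℂ} (hφ : IsIrr H φ) : φ ∈ s ↔ ip H χ φ ≠ 0 := by
  rw [h.count hφ, ← Multiset.count_ne_zero]
  simp

omit [Fintype G] in
lemma Dec.deg_sum {H : Subgroup G} {χ : G → ℂ} {s : Multiset (G → ℂ)} (h : Dec H χ s) :
    χ 1 = ((s.map deg).sum : ℕ) := by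
  rw [h.2 1 H.one_mem]
  have h1 := h.1
  clear h
  induction s using Multiset.induction_on with
  | empty => simp
  | cons a s ih =>
    simp only [Multiset.map_cons, Multiset.sum_cons, Nat.cast_add]
    rw [ih (fun ψ hψ => h1 ψ (Multiset.mem_cons_of_mem hψ)),
      (h1 a (Multiset.mem_cons_self _ _)).isChar.deg_eq]

lemma ip_trans {M M' : Subgroup G} (hM : M' ≤ M) {θ β γ : G → ℂ} (hθ : IsChar M θ)
    (hβ : IsIrr M β) (hγ : IsChar M' γ) (h1 : ip M θ β ≠ 0) (h2 : ip M' β γ ≠ 0) :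
    ip M' θ γ ≠ 0 := by
  obtain ⟨s, hs⟩ := hθ.exists_dec
  have hm := (hs.mem_iff hβ).2 h1
  rw [ip_sum hM hs.2]
  obtain ⟨t, rfl⟩ := Multiset.exists_cons_of_mem hm
  have h3 : ∀ t : Multiset (G → ℂ), (∀ ψ ∈ t, IsIrr M ψ) →
      ∃ n : ℕ, (t.map (fun ψ => ip M' ψ γ)).sum = n := by
    intro t
    induction t using Multiset.induction_on with
    | empty => intro _; exact ⟨0, by simp⟩
    | cons a t ih =>
      intro ht
      obtain ⟨n, hn⟩ := ih (fun ψ hψ => ht ψ (Multiset.mem_cons_of_mem hψ))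
      obtain ⟨m, hm⟩ := ip_nat ((ht a (Multiset.mem_cons_self _ _)).isChar.mono hM) hγ
      exact ⟨m + n, by simp [hn, hm]⟩
  obtain ⟨n, hn⟩ := h3 t (fun ψ hψ => hs.1 ψ (Multiset.mem_cons_of_mem hψ))
  obtain ⟨m, hm⟩ := ip_nat (hβ.isChar.mono hM) hγ
  rw [Multiset.map_cons, Multiset.sum_cons, hn, hm]
  rw [hm] at h2
  have : m ≠ 0 := by exact_mod_cast h2
  have h4 : m + n ≠ 0 := by omega
  exact_mod_cast h4

lemma scal_rep {H V : Type} [Group H] [Finite H] [AddCommGroup V] [Module ℂ V]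
    [FiniteDimensional ℂ V] (ρ : Representation ℂ H V) (x : H) (z : ℂ)
    (h : ∀ y, ρ.character (x * y) = z * ρ.character y) : ρ x = z • (1 : V →ₗ[ℂ] V) := by
  rcases subsingleton_or_nontrivial V with hV | hV
  · exact Subsingleton.elim _ _
  have hd : (finrank ℂ V : ℂ) ≠ 0 := by exact_mod_cast finrank_pos.ne'
  have hpow : ∀ j : ℕ, ρ.character (x ^ j) = z ^ j * finrank ℂ V := by
    intro j
    induction j with
    | zero => simp
    | succ j ih => rw [pow_succ', h, ih]; ring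
  set n := orderOf x with hn
  have hn0 : 0 < n := orderOf_pos x
  have hzn : z ^ n = 1 := by
    have := hpow n
    rw [hn, pow_orderOf_eq_one, Representation.char_one] at this
    exact mul_right_cancel₀ hd (by rw [one_mul]; exact this.symm)
  have hz0 : z ≠ 0 := by
    rintro rfl
    rw [zero_pow hn0.ne'] at hzn
    exact zero_ne_one hzn
  set A : V →ₗ[ℂ] V := z⁻¹ • ρ x with hA
  have hAn : A ^ n = 1 := by
    rw [hA, smul_pow, ← map_pow, hn, pow_orderOf_eq_one, inv_pow, ← hn, hzn]; simp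
  set T : V →ₗ[ℂ] V := ∑ j ∈ Finset.range n, A ^ j with hT
  have hAT : A * T = T := by
    have := mul_geom_sum A n
    rw [hAn, sub_self, sub_mul, one_mul, sub_eq_zero] at this
    exact this
  have hAjT : ∀ j : ℕ, A ^ j * T = T := by
    intro j
    induction j with
    | zero => simp
    | succ j ih => rw [pow_succ, mul_assoc, hAT, ih]
  have hn' : (n : ℂ) ≠ 0 := by exact_mod_cast hn0.ne'
  set P : V →ₗ[ℂ] V := (n : ℂ)⁻¹ • T with hP
  have hPP : IsIdempotentElem P := by
    have : T * T = (n : ℂ) • T := by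
      conv_lhs => rw [hT, Finset.sum_mul]
      simp only [← hT, hAjT]
      simp [Nat.cast_smul_eq_nsmul]
    unfold IsIdempotentElem
    rw [hP, smul_mul_smul_comm, this, smul_smul]
    congr 1
    field_simp
  have htr : LinearMap.trace ℂ V (1 - P) = 0 := by
    rw [map_sub, hP, map_smul, hT, map_sum, LinearMap.trace_one]
    have : ∀ j ∈ Finset.range n, LinearMap.trace ℂ V (A ^ j) = finrank ℂ V := by
      intro j _
      rw [hA, smul_pow, map_smul, ← map_pow]
      have := hpow j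
      unfold Representation.character at this
      rw [this, smul_eq_mul, ← mul_assoc, ← mul_pow, inv_mul_cancel₀ hz0]; simp
    rw [Finset.sum_congr rfl this]
    simp only [Finset.sum_const, Finset.card_range, nsmul_eq_mul, smul_eq_mul]
    field_simp
    ring
  have hP1 : P = 1 := by
    have := (LinearMap.IsIdempotentElem.trace_eq_zero_iff hPP.one_sub).1 htr
    exact (sub_eq_zero.1 this).symm
  have hA1 : A = 1 := by
    have : A * P = P := by rw [hP, mul_smul_comm, hAT]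
    rwa [hP1, mul_one] at this
  rw [← hA1, hA, smul_smul, mul_inv_cancel₀ hz0, one_smul]

lemma scal_iff {H : Subgroup G} {χ : G → ℂ} {V : Type} [AddCommGroup V] [Module ℂ V]
    [FiniteDimensional ℂ V] {ρ : Representation ℂ H V} (h : ∀ x : H, χ x = ρ.character x)
    (x : H) (z : ℂ) : Scal H χ x z ↔ ρ x = z • (1 : V →ₗ[ℂ] V) := by
  constructor
  · intro hs
    apply scal_rep
    intro y
    rw [← h, ← h]
    exact hs y y.2
  · intro hs y hy
    have h1 := h (x * ⟨y, hy⟩)
    have h2 := h ⟨y, hy⟩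
    simp only [Subgroup.coe_mul] at h1 h2
    rw [h1, h2]
    unfold Representation.character
    rw [map_mul, hs]
    simp

lemma cons_scal {H M : Subgroup G} (hM : M ≤ H) {χ ψ : G → ℂ} (hχ : IsChar H χ) (hψ : IsIrr M ψ)
    (h : ip M χ ψ ≠ 0) {x : G} (hx : x ∈ M) {z : ℂ} (hs : Scal H χ x z) : Scal M ψ x z := by
  obtain ⟨V, _, _, _, ρ, hρ⟩ := hχ
  have h1 := (scal_iff hρ ⟨x, hM hx⟩ z).1 hs
  obtain ⟨s, hs1, hs2⟩ := decomp M _ V (ρ.comp (inclusion hM)) rfl
  have hd : Dec M χ s := ⟨fun ψ hψ => (hs1 ψ hψ).1,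
    fun y hy => (hρ ⟨y, hM hy⟩).trans (hs2 ⟨y, hy⟩)⟩
  have hm := (hd.mem_iff hψ).2 h
  intro y hy
  have := (hs1 ψ hm).2 (fun w => if w = ⟨x, hx⟩ then 1 else 0) z (by
    simp only [ite_smul, one_smul, zero_smul, Finset.sum_ite_eq', Finset.mem_univ, if_true]
    exact h1) ⟨y, hy⟩
  simpa using this

lemma schur {H V : Type} [Group H] [AddCommGroup V] [Module ℂ V]
    [FiniteDimensional ℂ V] (ρ : Representation ℂ H V) (hρ : ρ.IsIrreducible) (T : V →ₗ[ℂ] V)
    (h : ∀ x, T * ρ x = ρ x * T) : ∃ c : ℂ, T = c • (1 : V →ₗ[ℂ] V) := by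
  obtain ⟨c, hc⟩ := (Representation.IsIrreducible.algebraMap_intertwiningMap_bijective_of_isAlgClosed
    (ρ := ρ)).2 ⟨T, h⟩
  refine ⟨c, ?_⟩
  have := congrArg Representation.IntertwiningMap.toLinearMap hc
  exact this.symm

end Pool.Agent.P.MP_d0f95c_al
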