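import Pool.Agent.P.MP_d0f95c_al.Char

set_option autoImplicit false

open Subgroup Module

namespace Pool.Agent.P.MP_d0f95c_al

open scoped Classical

variable {G : Type} [Group G] [Fintype G]

/-- conjugation action on functions -/
@[reducible] def cjAction (G : Type) [Group G] : MulAction G (G → ℂ) where
  smul g χ := fun x => χ (g⁻¹ * x * g)
  one_smul χ := by funext x; change χ (1⁻¹ * x * 1) = χ x; simp
  mul_smul a b χ := by
    funext x
    change χ ((a * b)⁻¹ * x * (a * b)) = χ (b⁻¹ * (a⁻¹ * x * a) * b)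
    simp [mul_assoc]

attribute [local instance] cjAction

omit [Fintype G] in
lemma cj_apply (g : G) (χ : G → ℂ) (x : G) : (g • χ) x = χ (g⁻¹ * x * g) := rfl

omit [Fintype G] in
lemma deg_cj (g : G) (χ : G → ℂ) : deg (g • χ) = deg χ := by simp [deg, cj_apply]

/-- `u` normalises `H` -/
def Nz (H : Subgroup G) (u : G) : Prop := ∀ x, u⁻¹ * x * u ∈ H ↔ x ∈ H

omit [Fintype G] in
lemma Nz.inv {H : Subgroup G} {u : G} (h : Nz H u) : Nz H u⁻¹ := by
  intro x
  rw [← h]; simp [mul_assoc]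

omit [Fintype G] in
lemma nz_of_normal (H : Subgroup G) [hH : H.Normal] (u : G) : Nz H u := by
  intro x
  constructor
  · intro h
    have := hH.conj_mem _ h u
    simpa [mul_assoc] using this
  · intro h
    have := hH.conj_mem _ h u⁻¹
    simpa using this

omit [Fintype G] in
lemma nz_of_mem {H : Subgroup G} {u : G} (hu : u ∈ H) : Nz H u := by
  intro x
  constructor
  · intro h
    have := H.mul_mem (H.mul_mem hu h) (H.inv_mem hu)
    simpa [mul_assoc] using this
  · intro h
    exact H.mul_mem (H.mul_mem (H.inv_mem hu) h) hu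

def nzEquiv {H : Subgroup G} {u : G} (h : Nz H u) : H ≃* H where
  toFun x := ⟨u⁻¹ * x * u, (h x).2 x.2⟩
  invFun x := ⟨u * x * u⁻¹, by simpa using (h.inv x).2 x.2⟩
  left_inv x := by apply Subtype.ext; simp [mul_assoc]
  right_inv x := by apply Subtype.ext; simp [mul_assoc]
  map_mul' x y := by apply Subtype.ext; simp [mul_assoc]

omit [Fintype G] in
lemma irr_comp {H K V : Type} [Group H] [Group K] [AddCommGroup V] [Module ℂ V]
    (ρ : Representation ℂ H V) (hρ : ρ.IsIrreducible) (e : K →* H) (he : Function.Surjective e) :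
    Representation.IsIrreducible (ρ.comp e : Representation ℂ K V) := by
  have hnt : Nontrivial (Subrepresentation (ρ.comp e : Representation ℂ K V)) := ⟨⊥, ⊤, fun h => by
    have h1 : (⊥ : Submodule ℂ V) = ⊤ := congrArg Subrepresentation.toSubmodule h
    have : (⊥ : Subrepresentation ρ) = ⊤ := Subrepresentation.toSubmodule_injective h1
    exact bot_ne_top this⟩
  refine ⟨fun W => ?_⟩
  let W' : Subrepresentation ρ := ⟨W.toSubmodule, fun g v hv => by
    obtain ⟨k, rfl⟩ := he g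
    exact W.apply_mem_toSubmodule k hv⟩
  rcases eq_bot_or_eq_top W' with h | h
  · left
    have h1 : W'.toSubmodule = ⊥ := congrArg Subrepresentation.toSubmodule h
    exact Subrepresentation.toSubmodule_injective h1
  · right
    have h1 : W'.toSubmodule = ⊤ := congrArg Subrepresentation.toSubmodule h
    exact Subrepresentation.toSubmodule_injective h1

omit [Fintype G] in
lemma IsIrr.cj {H : Subgroup G} {χ : G → ℂ} (h : IsIrr H χ) {u : G} (hu : Nz H u) :
    IsIrr H (u • χ) := by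
  obtain ⟨⟨V, _, _, _, ρ, hρ, h⟩, h'⟩ := h
  refine ⟨⟨V, _, _, inferInstance, ρ.comp (nzEquiv hu).toMonoidHom,
    irr_comp ρ hρ _ (nzEquiv hu).surjective, fun x => h (nzEquiv hu x)⟩, fun x hx => ?_⟩
  exact h' _ (fun h2 => hx ((hu x).1 h2))

omit [Fintype G] in
lemma IsIrr.cj_mem {H : Subgroup G} {χ : G → ℂ} (h : IsIrr H χ) {u : G} (hu : u ∈ H) :
    u • χ = χ := by
  funext x
  rw [cj_apply]
  by_cases hx : x ∈ H
  · have := h.isChar.conj hx (H.inv_mem hu)
    simpa using this
  · rw [h.2 x hx, h.2 _ (fun h2 => hx ((nz_of_mem hu x).1 h2))]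

lemma ip_cj {H : Subgroup G} (χ ψ : G → ℂ) {u : G} (hu : Nz H u) :
    ip H (u • χ) (u • ψ) = ip H χ ψ := by
  unfold ip
  congr 1
  apply Fintype.sum_equiv (nzEquiv hu).toEquiv
  intro x
  simp [cj_apply, nzEquiv, mul_assoc]

lemma ip_congr {H : Subgroup G} {χ χ' : G → ℂ} (ψ : G → ℂ) (h : ∀ x ∈ H, χ x = χ' x) :
    ip H χ ψ = ip H χ' ψ := by
  unfold ip
  congr 1
  apply Finset.sum_congr rfl
  intro x _
  rw [h x x.2]

lemma Dec.count_cj {H : Subgroup G} {χ : G → ℂ} {s : Multiset (G → ℂ)} (h : Dec H χ s)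
    {u : G} (hu : Nz H u) (hχ : ∀ x ∈ H, (u • χ) x = χ x) (φ : G → ℂ) :
    s.count (u • φ) = s.count φ := by
  by_cases hφ : IsIrr H φ
  · have h1 := h.count hφ
    have h2 := h.count (hφ.cj hu)
    rw [← ip_congr _ hχ, ip_cj _ _ hu, h1] at h2
    exact_mod_cast h2.symm
  · have h2 : ¬ IsIrr H (u • φ) := fun h2 => hφ (by simpa using h2.cj hu.inv)
    rw [Multiset.count_eq_zero.2 (fun hm => hφ (h.1 _ hm)),
      Multiset.count_eq_zero.2 (fun hm => h2 (h.1 _ hm))]

lemma orbit_dvd {U X : Type} [Group U] [Finite U] [MulAction U X] [DecidableEq X] (w : X → ℕ)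
    (hw : ∀ (u : U) x, w (u • x) = w x) (d : ℕ) (n : ℕ) : ∀ s : Multiset X, s.card = n →
    (∀ (u : U) x, s.count (u • x) = s.count x) →
    (∀ x ∈ s, d ∣ (MulAction.stabilizer U x).index * w x) → d ∣ (s.map w).sum := by
  induction n using Nat.strong_induction_on with
  | _ n ih =>
    intro s hn hs hd
    rcases s.empty_or_exists_mem with h | ⟨x, hx⟩
    · simp [h]
    have hfin : (MulAction.orbit U x).Finite := Set.finite_range _
    set O : Multiset X := hfin.toFinset.val with hO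
    have hcnt : ∀ y, O.count y = if y ∈ MulAction.orbit U x then 1 else 0 := by
      intro y
      rw [hO, Multiset.count_eq_of_nodup hfin.toFinset.nodup]
      simp
    have hle : O ≤ s := by
      rw [Multiset.le_iff_count]
      intro y
      rw [hcnt]
      split_ifs with hy
      · obtain ⟨u, rfl⟩ := hy
        simp only
        rw [hs]
        exact Multiset.one_le_count_iff_mem.2 hx
      · exact Nat.zero_le _
    obtain ⟨t, rfl⟩ := Multiset.le_iff_exists_add.1 hle
    have hOw : (O.map w).sum = (MulAction.stabilizer U x).index * w x := by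
      rw [MulAction.index_stabilizer, Set.ncard_eq_toFinset_card _ hfin]
      have : O.map w = O.map (fun _ => w x) := by
        apply Multiset.map_congr rfl
        intro y hy
        have : y ∈ MulAction.orbit U x := by simpa [hO] using hy
        obtain ⟨u, rfl⟩ := this
        exact hw u x
      rw [this]
      simp [hO]
    have hpos : 0 < O.card := by
      rw [Multiset.card_pos_iff_exists_mem]
      exact ⟨x, by simp [hO]⟩
    rw [Multiset.map_add, Multiset.sum_add, hOw]
    refine dvd_add (hd x hx) (ih t.card ?_ t rfl ?_ (fun y hy => hd y (Multiset.mem_add.2 (Or.inr hy))))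
    · rw [← hn, Multiset.card_add]; omega
    · intro u y
      have h1 := hs u y
      rw [Multiset.count_add, Multiset.count_add, hcnt, hcnt] at h1
      have h2 : u • y ∈ MulAction.orbit U x ↔ y ∈ MulAction.orbit U x := by
        constructor
        · rintro ⟨v, hv⟩
          exact ⟨u⁻¹ * v, by simp only at hv ⊢; rw [mul_smul, hv]; simp⟩
        · rintro ⟨v, rfl⟩
          exact ⟨u * v, by simp [mul_smul]⟩
      simp only [h2] at h1
      omega

omit [Fintype G] in
lemma stab_index (U : Subgroup G) (φ : G → ℂ) :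
    (MulAction.stabilizer U φ).index = (MulAction.stabilizer G φ).relIndex U := rfl

/-- divisibility along orbits of constituents -/
lemma cons_dvd {M U : Subgroup G} {χ : G → ℂ} {s : Multiset (G → ℂ)} (hs : Dec M χ s)
    (hU : ∀ u ∈ U, Nz M u) (hχ : ∀ u ∈ U, ∀ x ∈ M, (u • χ) x = χ x) (d : ℕ)
    (Q : (G → ℂ) → Prop) (hQ : ∀ u ∈ U, ∀ φ, Q (u • φ) ↔ Q φ)
    (hd : ∀ φ ∈ s, Q φ → d ∣ (MulAction.stabilizer G φ).relIndex U * deg φ) :
    d ∣ ((s.filter Q).map deg).sum := by
  apply orbit_dvd (U := U) (X := G → ℂ) deg (fun u x => deg_cj (u : G) x) d _ _ rfl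
  · intro u φ
    change Multiset.count ((u : G) • φ) _ = _
    rw [Multiset.count_filter, Multiset.count_filter, hQ u u.2,
      hs.count_cj (hU u u.2) (hχ u u.2)]
  · intro φ hφ
    rw [Multiset.mem_filter] at hφ
    exact hd φ hφ.1 hφ.2

lemma schur_elt {H : Subgroup G} {χ : G → ℂ} (h : IsIrr H χ) {a : G} (ha : a ∈ H)
    (hc : ∀ x ∈ H, Scal H χ (x⁻¹ * a⁻¹ * x * a) 1) : ∃ z, Scal H χ a z := by
  obtain ⟨⟨V, _, _, _, ρ, hρ, h⟩, _⟩ := h
  obtain ⟨c, hc⟩ := schur ρ hρ (ρ ⟨a, ha⟩) (fun x => by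
    have h1 := (scal_iff h (x⁻¹ * (⟨a, ha⟩ : H)⁻¹ * x * ⟨a, ha⟩) 1).1 (hc x x.2)
    have h2 : x * ⟨a, ha⟩ = ⟨a, ha⟩ * x * (x⁻¹ * (⟨a, ha⟩ : H)⁻¹ * x * ⟨a, ha⟩) := by group
    rw [← map_mul, ← map_mul, h2, map_mul ρ (⟨a, ha⟩ * x), h1]
    simp)
  exact ⟨c, (scal_iff h ⟨a, ha⟩ c).2 hc⟩

/-- sums of class functions act as scalars -/
lemma schur_fun {H M V : Type} [Group H] [Group M] [Fintype M] [AddCommGroup V] [Module ℂ V]
    [FiniteDimensional ℂ V] (ρ : Representation ℂ H V) (hρ : ρ.IsIrreducible) (i : M →* H)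
    (F : M → ℂ) (hF : ∀ y : H, ∃ e : M ≃ M, ∀ x, i (e x) = y⁻¹ * i x * y ∧ F (e x) = F x) :
    ∃ c : ℂ, ∑ x, F x • ρ (i x) = c • (1 : V →ₗ[ℂ] V) := by
  apply schur ρ hρ
  intro y
  obtain ⟨e, he⟩ := hF y
  rw [Finset.sum_mul, Finset.mul_sum, ← Equiv.sum_comp e (fun x => ρ y * F x • ρ (i x))]
  apply Finset.sum_congr rfl
  intro x _
  rw [(he x).1, (he x).2, smul_mul_assoc, mul_smul_comm, ← map_mul, ← map_mul]
  simp [mul_assoc]

lemma fix_ker {N D : Subgroup G} (hD : D ≤ N) (hn : ∀ y ∈ N, Nz D y) {θ : G → ℂ} (h : IsIrr N θ)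
    (h0 : ip D θ (fun _ => 1) ≠ 0) {d : G} (hd : d ∈ D) : Scal N θ d 1 := by
  obtain ⟨⟨V, _, _, _, ρ, hρ, h⟩, _⟩ := h
  obtain ⟨c, hc⟩ := schur_fun ρ hρ (inclusion hD) (fun _ => 1) (fun y =>
    ⟨(nzEquiv (hn y y.2)).toEquiv, fun x => ⟨rfl, rfl⟩⟩)
  have hc0 : c ≠ 0 := by
    rintro rfl
    apply h0
    have := congrArg (LinearMap.trace ℂ V) hc
    simp only [one_smul, map_sum, zero_smul, map_zero] at this
    unfold ip
    have h2 : ∑ x : D, θ x * 1 = 0 := by
      rw [← this]
      apply Finset.sum_congr rfl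
      intro x _
      rw [mul_one]
      exact h (inclusion hD x)
    rw [h2, mul_zero]
  apply (scal_iff h ⟨d, hD hd⟩ 1).2
  have h3 : ρ ⟨d, hD hd⟩ * ∑ x : D, (1 : ℂ) • ρ (inclusion hD x)
      = ∑ x : D, (1 : ℂ) • ρ (inclusion hD x) := by
    rw [Finset.mul_sum, ← Equiv.sum_comp (Equiv.mulLeft (⟨d, hd⟩ : D))
      (fun x => (1 : ℂ) • ρ (inclusion hD x))]
    apply Finset.sum_congr rfl
    intro x _
    simp only [one_smul, Equiv.coe_mulLeft, map_mul]
    rfl
  rw [hc, mul_smul_comm, mul_one] at h3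
  rw [one_smul]
  exact smul_right_injective _ hc0 h3

lemma clifford {N A : Subgroup G} (hA : A ≤ N) (hn : ∀ y ∈ N, Nz A y) {θ μ ν : G → ℂ}
    (h : IsIrr N θ) (hμ : IsIrr A μ) (hν : IsIrr A ν) (h1 : ip A θ μ ≠ 0) (h2 : ip A θ ν ≠ 0) :
    ∃ y ∈ N, ν = y • μ := by
  obtain ⟨⟨V, _, _, _, ρ, hρ, h⟩, _⟩ := h
  obtain ⟨c, hc⟩ := schur_fun ρ hρ (inclusion hA)
    (fun x => ∑ y : N, ((y : G) • μ) (x : G)⁻¹) (fun y =>
    ⟨(nzEquiv (hn y y.2)).toEquiv, fun x => ⟨rfl, by
      rw [← Equiv.sum_comp (Equiv.mulLeft y) (fun y : N => ((y : G) • μ) (x : G)⁻¹)]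
      apply Finset.sum_congr rfl
      intro z _
      simp [cj_apply, nzEquiv, mul_assoc]⟩⟩)
  obtain ⟨s, hs1, hs2⟩ := decomp A _ V (ρ.comp (inclusion hA)) rfl
  have hd : Dec A θ s := ⟨fun ψ hψ => (hs1 ψ hψ).1,
    fun y hy => (h ⟨y, hA hy⟩).trans (hs2 ⟨y, hy⟩)⟩
  have key : ∀ ψ, IsIrr A ψ → ip A θ ψ ≠ 0 →
      (Nat.card A : ℂ) * ((Finset.univ.filter (fun y : N => ψ = (y : G) • μ)).card : ℂ)
        = c * ψ 1 := by
    intro ψ hψ h0
    have h3 := (hs1 ψ ((hd.mem_iff hψ).2 h0)).2 _ c hc 1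
    simp only [OneMemClass.coe_one, mul_one] at h3
    rw [← h3]
    simp only [Finset.sum_mul]
    rw [Finset.sum_comm, Finset.card_filter]
    push_cast
    rw [Finset.mul_sum]
    apply Finset.sum_congr rfl
    intro y _
    rw [← ip_irr hψ (hμ.cj (hn y y.2))]
    unfold ip
    rw [← mul_assoc, mul_inv_cancel₀ (card_ne A), one_mul]
    apply Finset.sum_congr rfl
    intro x _
    ring
  have hc0 : c ≠ 0 := by
    rintro rfl
    have := key μ hμ h1
    rw [zero_mul, mul_eq_zero] at this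
    rcases this with h4 | h4
    · exact card_ne A h4
    · have h5 : (Finset.univ.filter (fun y : N => μ = (y : G) • μ)).card = 0 := by
        exact_mod_cast h4
      rw [Finset.card_eq_zero, Finset.filter_eq_empty_iff] at h5
      exact h5 (Finset.mem_univ 1) (by simp)
  have h6 := key ν hν h2
  have h7 : (Finset.univ.filter (fun y : N => ν = (y : G) • μ)).card ≠ 0 := by
    intro h8
    rw [h8] at h6
    simp only [Nat.cast_zero, mul_zero] at h6
    exact mul_ne_zero hc0 hν.one_ne h6.symm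
  obtain ⟨y, hy⟩ := Finset.card_ne_zero.1 h7
  exact ⟨y, y.2, (Finset.mem_filter.1 hy).2⟩

omit [Fintype G] in
lemma linear_scal {H : Subgroup G} {χ : G → ℂ} (h : IsChar H χ) (h1 : deg χ = 1) {x : G}
    (hx : x ∈ H) : Scal H χ x (χ x) := by
  have h0 := h.deg_eq
  obtain ⟨V, _, _, _, ρ, h⟩ := h
  have h2 := h 1
  simp only [OneMemClass.coe_one, Representation.char_one] at h2
  rw [h2, h1] at h0
  have h3 : finrank ℂ V = 1 := by exact_mod_cast h0.symm
  have key : ∀ T : V →ₗ[ℂ] V, T = LinearMap.trace ℂ V T • (1 : V →ₗ[ℂ] V) := by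
    intro T
    have h4 : finrank ℂ (V →ₗ[ℂ] V) = 1 := by rw [finrank_linearMap, h3]
    have hnt : Nontrivial V := finrank_pos_iff.1 (by rw [h3]; exact one_pos)
    obtain ⟨c, hc⟩ := (finrank_eq_one_iff_of_nonzero' (1 : V →ₗ[ℂ] V) one_ne_zero).1 h4 T
    rw [← hc]
    simp [h3]
  intro y hy
  have h5 := h (⟨x, hx⟩ * ⟨y, hy⟩)
  have h6 := h ⟨y, hy⟩
  have h7 := h ⟨x, hx⟩
  simp only [Subgroup.coe_mul] at h5 h6 h7
  rw [h5, h6, h7]
  unfold Representation.character
  rw [map_mul]
  conv_lhs => rw [key (ρ ⟨x, hx⟩)]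
  simp

lemma char_integral {H V : Type} [Group H] [Finite H] [AddCommGroup V] [Module ℂ V]
    [FiniteDimensional ℂ V] (ρ : Representation ℂ H V) (x : H) : IsIntegral ℤ (ρ.character x) := by
  unfold Representation.character
  let b := Module.finBasis ℂ V
  rw [LinearMap.trace_eq_matrix_trace ℂ b, Matrix.trace_eq_sum_roots_charpoly]
  apply IsIntegral.multiset_sum
  intro r hr
  have h1 : Module.End.HasEigenvalue (ρ x) r := by
    rw [Module.End.hasEigenvalue_iff_isRoot_charpoly, ← LinearMap.charpoly_toMatrix (ρ x) b]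
    exact Polynomial.isRoot_of_mem_roots hr
  obtain ⟨v, hv⟩ := h1.exists_hasEigenvector
  have h2 := hv.pow_apply (orderOf x)
  rw [← map_pow, pow_orderOf_eq_one, map_one] at h2
  have h3 : r ^ orderOf x = 1 := by
    have h4 : (1 : ℂ) • v = r ^ orderOf x • v := by simpa using h2
    exact (smul_left_injective ℂ hv.2 h4).symm
  apply IsIntegral.of_pow (orderOf_pos x)
  rw [h3]
  exact isIntegral_one

lemma deg_dvd {H : Subgroup G} {χ : G → ℂ} (hχ : IsIrr H χ) : deg χ ∣ Nat.card H := by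
  have hip := ip_irr hχ hχ
  have hdeg := hχ.isChar.deg_eq
  have hne := hχ.one_ne
  have hcj := fun y (hy : y ∈ H) => hχ.cj_mem hy
  obtain ⟨⟨V, _, _, _, ρ, hρ, h⟩, _⟩ := hχ
  obtain ⟨c, hc⟩ := schur_fun ρ hρ (MonoidHom.id H) (fun x => χ (x : G)⁻¹) (fun y =>
    ⟨(nzEquiv (nz_of_mem y.2)).toEquiv, fun x => ⟨rfl, by
      have := congrFun (hcj y y.2) (x : G)⁻¹
      rw [← this]
      simp [cj_apply, nzEquiv, mul_assoc]⟩⟩)
  have h1 : c * χ 1 = Nat.card H := by
    have h2 := congrArg (LinearMap.trace ℂ V) hc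
    simp only [map_sum, map_smul, LinearMap.trace_one, smul_eq_mul, MonoidHom.id_apply] at h2
    have h3 := h 1
    simp only [OneMemClass.coe_one, Representation.char_one] at h3
    rw [h3, ← h2]
    rw [if_pos rfl] at hip
    unfold ip at hip
    rw [inv_mul_eq_one₀ (card_ne H)] at hip
    rw [hip]
    apply Finset.sum_congr rfl
    intro x _
    rw [mul_comm, h x]
    rfl
  have hnt : Nontrivial V := by
    have h3 := h 1
    simp only [OneMemClass.coe_one, Representation.char_one] at h3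
    rw [h3] at hne
    exact finrank_pos_iff.1 (Nat.pos_of_ne_zero (by exact_mod_cast hne))
  let R := integralClosure ℤ ℂ
  have h4 : IsIntegral R c := by
    obtain ⟨v, hv⟩ := exists_ne (0 : V)
    let W : Submodule R V := Submodule.span R (Set.range (fun y : H => ρ y v))
    have hW : W ≠ ⊥ := by
      intro h0
      have : v ∈ W := Submodule.subset_span ⟨1, by simp⟩
      rw [h0] at this
      exact hv this
    apply isIntegral_of_smul_mem_submodule W hW (Submodule.fg_span (Set.finite_range _))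
    intro w hw
    have hρW : ∀ x : H, ρ x w ∈ W := by
      intro x
      induction hw using Submodule.span_induction with
      | mem y hy =>
        obtain ⟨y, rfl⟩ := hy
        exact Submodule.subset_span ⟨x * y, by simp⟩
      | zero => simp
      | add a b _ _ ha hb => rw [map_add]; exact W.add_mem ha hb
      | smul r a _ ha =>
        have : ρ x (r • a) = r • ρ x a := (ρ x).map_smul (r : ℂ) a
        rw [this]; exact W.smul_mem r ha
    have h5 := LinearMap.congr_fun hc w
    simp only [MonoidHom.id_apply, LinearMap.sum_apply, LinearMap.smul_apply,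
      Module.End.one_apply] at h5
    rw [← h5]
    apply W.sum_mem
    intro x _
    have h6 : IsIntegral ℤ (χ (x : G)⁻¹) := by
      have := h x⁻¹
      simp only [InvMemClass.coe_inv] at this
      rw [this]; exact char_integral ρ _
    exact W.smul_mem (⟨_, h6⟩ : R) (hρW x)
  have h5 : IsIntegral ℤ c := isIntegral_trans c h4
  have hd0 : (deg χ : ℂ) ≠ 0 := hdeg ▸ hne
  have h6 : c = algebraMap ℚ ℂ ((Nat.card H : ℚ) / deg χ) := by
    rw [← hdeg] at h1
    simp only [eq_ratCast]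
    push_cast
    rw [← h1]; field_simp
  rw [h6, isIntegral_algebraMap_iff (algebraMap ℚ ℂ).injective] at h5
  obtain ⟨z, hz⟩ := IsIntegrallyClosed.isIntegral_iff.1 h5
  have hd1 : (deg χ : ℚ) ≠ 0 := by exact_mod_cast hd0
  have h7 : (z : ℚ) * deg χ = Nat.card H := by
    simp only [eq_intCast] at hz
    rw [hz]; field_simp
  have h8 : z * deg χ = Nat.card H := by exact_mod_cast h7
  exact Int.natCast_dvd_natCast.1 ⟨z, by rw [← h8]; ring⟩

/-- permutation character on the cosets of `U` -/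
noncomputable def perm (U : Subgroup G) : G → ℂ :=
  fun x => ((Finset.univ.filter (fun q : G ⧸ U => x • q = q)).card : ℂ)

lemma isChar_perm (U H : Subgroup G) : IsChar H (perm U) := by
  apply IsChar.mono _ (le_top : H ≤ ⊤)
  let ρ : Representation ℂ (⊤ : Subgroup G) ((G ⧸ U) → ℂ) :=
    { toFun := fun x => LinearMap.funLeft ℂ ℂ (fun q => (x : G)⁻¹ • q)
      map_one' := by ext; simp
      map_mul' := fun x y => by ext; simp [mul_smul] }
  refine ⟨_, _, _, inferInstance, ρ, fun x => ?_⟩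
  unfold Representation.character perm
  rw [LinearMap.trace_eq_matrix_trace ℂ (Pi.basisFun ℂ (G ⧸ U)), Matrix.trace, Finset.card_filter]
  push_cast
  apply Finset.sum_congr rfl
  intro q _
  simp [ρ, Pi.single_apply, inv_smul_eq_iff]
  simp only [eq_comm]

lemma perm_cj (U : Subgroup G) (g : G) : g • perm U = perm U := by
  funext x
  have := (isChar_perm U ⊤).conj (mem_top x) (mem_top g⁻¹)
  simpa [cj_apply] using this

lemma perm_one (U : Subgroup G) : perm U 1 = U.index := by
  simp [perm, index_eq_card]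

end Pool.Agent.P.MP_d0f95c_al
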