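import Mathlib

set_option autoImplicit false

open Subgroup

namespace Pool.Agent.P.MP_d0f95c_al

lemma nil_comm {Q : Type*} [Group Q] [Group.IsNilpotent Q] (S : Subgroup Q)
    (h : S ≤ ⁅S, (⊤ : Subgroup Q)⁆) : S = ⊥ := by
  obtain ⟨n, hn⟩ := Subgroup.nilpotent_iff_lowerCentralSeries.1 ‹Group.IsNilpotent Q›
  have key : ∀ m, S ≤ (⊤ : Subgroup Q).lowerCentralSeries m := by
    intro m
    induction m with
    | zero => exact le_top
    | succ m ih =>
      rw [Subgroup.lowerCentralSeries_succ]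
      exact h.trans (commutator_mono ih le_rfl)
  exact le_bot_iff.1 (hn ▸ key n)

lemma nil_center {Q : Type*} [Group Q] [Group.IsNilpotent Q] (S : Subgroup Q) [hS : S.Normal]
    (h : S ≠ ⊥) : ∃ a ∈ S, a ≠ 1 ∧ a ∈ center Q := by
  obtain ⟨n, hn⟩ := Group.IsNilpotent.nilpotent Q
  have key : ∀ m, (∃ a ∈ S, a ≠ 1 ∧ a ∈ Subgroup.upperCentralSeries Q m) →
      ∃ a ∈ S, a ≠ 1 ∧ a ∈ center Q := by
    intro m
    induction m with
    | zero => rintro ⟨a, _, h1, h2⟩; simp at h2; exact absurd h2 h1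
    | succ m ih =>
      rintro ⟨a, ha, h1, h2⟩
      by_cases hc : a ∈ center Q
      · exact ⟨a, ha, h1, hc⟩
      · rw [mem_center_iff] at hc
        push Not at hc
        obtain ⟨g, hg⟩ := hc
        rw [Subgroup.mem_upperCentralSeries_succ_iff] at h2
        refine ih ⟨_, ?_, ?_, h2 g⟩
        · rw [commutatorElement_def]
          have := S.mul_mem ha (hS.conj_mem _ (S.inv_mem ha) g)
          simpa [mul_assoc] using this
        · intro h0
          apply hg
          exact (commutatorElement_eq_one_iff_mul_comm.1 h0).symm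
  obtain ⟨a, ha, h1⟩ := (S.bot_or_exists_ne_one).resolve_left h
  exact key n ⟨a, ha, h1, hn ▸ mem_top a⟩

theorem tate {G : Type} [Group G] [Finite G] (p : ℕ) [hp : Fact p.Prime] (O : Subgroup G)
    [hOn : O.Normal]
    (hO : ∀ (C : Type) [Group C], IsPGroup p C → ∀ σ : O →* C, ∀ x, σ x = 1)
    (hU : ∀ (P : Sylow p G) (U : Subgroup G), U ≤ P → U.relIndex P = p → O ⊓ P ≤ U) :
    ¬ p ∣ Nat.card O := by
  intro hdvd
  obtain ⟨x0, hx0⟩ := exists_prime_orderOf_dvd_card' p hdvd
  have hx1 : orderOf (x0 : G) = p := by rw [← hx0]; simp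
  have hz : IsPGroup p (zpowers (x0 : G)) := by
    apply IsPGroup.of_card (n := 1)
    rw [Nat.card_zpowers, hx1, pow_one]
  obtain ⟨P0, hP⟩ := hz.exists_le_sylow
  have hP0i := P0.not_dvd_index
  have hU' := hU P0
  have hPp : IsPGroup p (P0 : Subgroup G) := P0.isPGroup'
  generalize (P0 : Subgroup G) = P at hP hP0i hU' hPp
  have : Group.IsNilpotent P := hPp.isNilpotent
  set S : Subgroup P := O.subgroupOf P with hS
  have hSn : S.Normal := inferInstance
  have hSne : S ≠ ⊥ := by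
    intro h
    have : (⟨x0, hP (mem_zpowers _)⟩ : P) ∈ S := by simp [hS, mem_subgroupOf]
    rw [h, mem_bot] at this
    have h2 : (x0 : G) = 1 := congrArg Subtype.val this
    rw [h2, orderOf_one] at hx1
    exact hp.out.one_lt.ne hx1
  set M : Subgroup P := ⁅S, (⊤ : Subgroup P)⁆ with hM
  have hMS : M ≤ S := commutator_le_left _ _
  let E := P ⧸ M
  have hEp : IsPGroup p E := hPp.to_quotient M
  let π : G →* G ⧸ O := QuotientGroup.mk' O
  let ι : E →* G ⧸ O := QuotientGroup.lift M (π.comp P.subtype) (by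
    intro x hx
    have := hMS hx
    simpa [π, hS, mem_subgroupOf] using this)
  have hι : ∀ h : P, ι (QuotientGroup.mk h) = π h := fun h => rfl
  let C : Subgroup E := ι.ker
  have hCS : ∀ h : P, (QuotientGroup.mk h : E) ∈ C ↔ h ∈ S := by
    intro h
    simp [C, MonoidHom.mem_ker, hι, π, hS, mem_subgroupOf]
  have hCc : ∀ c ∈ C, ∀ e : E, e * c = c * e := by
    intro c hc e
    obtain ⟨s, rfl⟩ := QuotientGroup.mk_surjective c
    obtain ⟨h, rfl⟩ := QuotientGroup.mk_surjective e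
    have hs := (hCS s).1 hc
    rw [← QuotientGroup.mk_mul, ← QuotientGroup.mk_mul, QuotientGroup.eq]
    have := commutator_mem_commutator (S.inv_mem hs) (mem_top h⁻¹)
    rw [commutatorElement_def] at this
    simpa [mul_assoc] using this
  let _ : CommGroup C := { (inferInstance : Group C) with
    mul_comm := fun a b => Subtype.ext (hCc b b.2 a) }
  have hCp : IsPGroup p C := hEp.to_subgroup C
  let T : Subgroup (G × E) := MonoidHom.eqLocus (π.comp (MonoidHom.fst G E))
    (ι.comp (MonoidHom.snd G E))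
  have hT : ∀ y : G × E, y ∈ T ↔ π y.1 = ι y.2 := fun y => Iff.rfl
  let r : T →* G := (MonoidHom.fst G E).comp T.subtype
  let R : Subgroup T := P.comap r
  have hRidx : ¬ p ∣ R.index := by
    intro h
    apply hP0i
    refine h.trans ?_
    rw [index_comap]
    apply relIndex_dvd_index_of_le
    intro h hh
    exact ⟨⟨(h, QuotientGroup.mk ⟨h, hh⟩), (hT _).2 rfl⟩, rfl⟩
  let φ : R →* C := MonoidHom.mk' (fun y => ⟨y.1.1.2 * (QuotientGroup.mk (⟨y.1.1.1, y.2⟩ : P))⁻¹, by
      have := (hT _).1 y.1.2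
      simp only [C, MonoidHom.mem_ker, map_mul, map_inv, hι, ← this]
      simp⟩) (by
    intro y z
    apply Subtype.ext
    have hz : z.1.1.2 * (QuotientGroup.mk (⟨z.1.1.1, z.2⟩ : P) : E)⁻¹ ∈ C := by
      have := (hT _).1 z.1.2
      simp only [C, MonoidHom.mem_ker, map_mul, map_inv, hι, ← this]
      simp
    have h1 := hCc _ hz (QuotientGroup.mk (⟨y.1.1.1, y.2⟩ : P) : E)⁻¹
    have h2 : (QuotientGroup.mk (⟨(y * z).1.1.1, (y * z).2⟩ : P) : E)
        = QuotientGroup.mk (⟨y.1.1.1, y.2⟩ : P) * QuotientGroup.mk (⟨z.1.1.1, z.2⟩ : P) := rfl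
    change (y.1.1.2 * z.1.1.2) * (QuotientGroup.mk (⟨(y * z).1.1.1, (y * z).2⟩ : P) : E)⁻¹
      = (y.1.1.2 * (QuotientGroup.mk (⟨y.1.1.1, y.2⟩ : P) : E)⁻¹) *
        (z.1.1.2 * (QuotientGroup.mk (⟨z.1.1.1, z.2⟩ : P) : E)⁻¹)
    rw [h2, mul_inv_rev]
    rw [mul_assoc y.1.1.2 (QuotientGroup.mk (⟨y.1.1.1, y.2⟩ : P) : E)⁻¹, h1]
    simp only [mul_assoc])
  let V : T →* C := MonoidHom.transfer φ
  have hVc : ∀ c : C, V ⟨(1, c.1), (hT _).2 (by simpa using c.2.symm)⟩ = c ^ R.index := by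
    intro c
    set z : T := ⟨(1, c.1), (hT _).2 (by simpa using c.2.symm)⟩ with hz
    have hcen : ∀ w : T, w * z = z * w := by
      intro w
      apply Subtype.ext
      apply Prod.ext
      · simp [hz]
      · simp [hz, hCc c.1 c.2]
    have key : ∀ (k : ℕ) (g₀ : T), g₀⁻¹ * z ^ k * g₀ ∈ R → g₀⁻¹ * z ^ k * g₀ = z ^ k := by
      intro k g₀ _
      have : Commute g₀ (z ^ k) := Commute.pow_right (hcen g₀) k
      rw [mul_assoc, ← this.eq, inv_mul_cancel_left]
    rw [MonoidHom.transfer_eq_pow φ z key]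
    apply Subtype.ext
    simp only [φ, MonoidHom.mk'_apply, hz]
    have h1 : (⟨((z ^ R.index : T) : G × E).1, MonoidHom.transfer_eq_pow_aux z key⟩ : P) = 1 := by
      apply Subtype.ext
      simp [hz]
    simp only [hz] at h1
    rw [h1]
    simp
  let σ : O →* T := MonoidHom.mk' (fun o => ⟨(o.1, 1), (hT _).2 (by simp [π])⟩) (by
    intro a b; apply Subtype.ext; simp)
  have hVo : ∀ o : O, V (σ o) = 1 := hO C hCp (V.comp σ)
  let δ : P →* T := MonoidHom.mk' (fun h => ⟨(h.1, QuotientGroup.mk h), (hT _).2 rfl⟩) (by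
    intro a b; rfl)
  let ψ : P →* C := V.comp δ
  have hψ : ∀ (s : P) (hs : s ∈ S), ψ s = (⟨QuotientGroup.mk s, (hCS s).2 hs⟩ : C) ^ R.index := by
    intro s hs
    rw [← hVc]
    have : δ s = σ ⟨s.1, hs⟩ * ⟨(1, QuotientGroup.mk s), (hT _).2 (by
        simpa using ((hCS s).2 hs).symm)⟩ := by
      apply Subtype.ext
      simp [δ, σ]
    simp only [ψ, MonoidHom.comp_apply]
    rw [this, map_mul, hVo, one_mul]
  have hcop : p.Coprime R.index := (Nat.Prime.coprime_iff_not_dvd hp.out).2 hRidx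
  have hsurj : ∀ c : C, ∃ s ∈ S, ψ s = c := by
    intro c
    obtain ⟨d, hd⟩ := (hCp.powEquiv hcop).surjective c
    obtain ⟨s, hs⟩ := QuotientGroup.mk_surjective d.1
    have hs' : s ∈ S := (hCS s).1 (hs ▸ d.2)
    refine ⟨s, hs', ?_⟩
    rw [hψ s hs', ← hd, IsPGroup.powEquiv_apply]
    congr 1
    exact Subtype.ext hs
  have hCnt : Nontrivial C := by
    by_contra hnt
    rw [not_nontrivial_iff_subsingleton] at hnt
    apply hSne
    apply nil_comm
    intro s hs
    have : (⟨QuotientGroup.mk s, (hCS s).2 hs⟩ : C) = 1 := Subsingleton.elim _ _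
    have h2 : (QuotientGroup.mk s : E) = 1 := congrArg Subtype.val this
    exact (QuotientGroup.eq_one_iff s).1 h2
  obtain ⟨n, hn0, hn⟩ := hCp.nontrivial_iff_card.1 hCnt
  obtain ⟨m, rfl⟩ := Nat.exists_eq_succ_of_ne_zero hn0.ne'
  obtain ⟨C0, hC0⟩ := Sylow.exists_subgroup_card_pow_prime (G := C) p (n := m)
    (by rw [hn]; exact pow_dvd_pow p (Nat.le_succ m))
  have hC0i : C0.index = p := by
    have := C0.card_mul_index
    rw [hC0, hn, pow_succ] at this
    exact Nat.eq_of_mul_eq_mul_left (pow_pos hp.out.pos m) this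
  have hψs : Function.Surjective ψ := fun c => by
    obtain ⟨s, _, h⟩ := hsurj c; exact ⟨s, h⟩
  have h1 : (C0.comap ψ).index = p := by rw [index_comap_of_surjective _ hψs, hC0i]
  have h2 := hU' ((C0.comap ψ).map P.subtype) (map_subtype_le _) (by
    rw [relIndex, subgroupOf, comap_map_eq_self_of_injective (subtype_injective _), h1])
  have h3 : C0 = ⊤ := by
    rw [eq_top_iff]
    intro c _
    obtain ⟨s, hs, rfl⟩ := hsurj c
    obtain ⟨t, ht, hts⟩ := h2 (show (s : G) ∈ O ⊓ P from ⟨hs, s.2⟩)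
    have : t = s := Subtype.ext hts
    rw [← this]
    exact ht
  rw [h3, index_top] at hC0i
  exact hp.out.one_lt.ne hC0i

end Pool.Agent.P.MP_d0f95c_al
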