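import Pool.Agent.P.MP_d0f95c_al.Star
import Pool.Agent.P.MP_d0f95c_al.Tate

set_option autoImplicit false

open Subgroup Module

namespace Pool.Agent.P.MP_d0f95c_al

open scoped Classical

variable {G : Type} [Group G] [Fintype G]

attribute [local instance] cjAction

lemma step {M U : Subgroup G} {χ : G → ℂ} (hχ' : IsChar M χ)
    (hU : ∀ u ∈ U, Nz M u) (hχ : ∀ u ∈ U, u • χ = χ) (d : ℕ)
    (hd : ¬ d ∣ U.index * deg χ) :
    ∃ β, IsIrr M β ∧ ip M χ β ≠ 0 ∧ ¬ d ∣ (U ⊓ MulAction.stabilizer G β).index * deg β := by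
  obtain ⟨s, hs⟩ := hχ'.exists_dec
  by_contra hc
  push Not at hc
  apply hd
  apply cons_dvd' hs hχ' hU (fun u hu x _ => by rw [hχ u hu])
  intro φ hφ
  have := hc φ (hs.1 φ hφ) ((hs.mem_iff (hs.1 φ hφ)).1 hφ)
  rwa [← relIndex_mul_index (inf_le_left : U ⊓ MulAction.stabilizer G φ ≤ U), inf_relIndex_left,
    mul_assoc] at this

lemma exists_central {p : ℕ} [Fact p.Prime] {U M Z : Subgroup G} (hMU : M ≤ U)
    (hM : ∀ u ∈ U, ∀ x ∈ M, u⁻¹ * x * u ∈ M) (hZ : ∀ u ∈ U, ∀ x ∈ Z, u⁻¹ * x * u ∈ Z)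
    (hp : ∀ u ∈ U, ∃ j, u ^ p ^ j ∈ Z) (hne : ¬ M ≤ Z) :
    ∃ a ∈ M, a ∉ Z ∧ ∀ u ∈ U, u⁻¹ * a⁻¹ * u * a ∈ Z := by
  have hn : ∀ X : Subgroup G, (∀ u ∈ U, ∀ x ∈ X, u⁻¹ * x * u ∈ X) → (X.subgroupOf U).Normal := by
    intro X hX
    refine ⟨fun x hx u => ?_⟩
    have := hX u⁻¹ (U.inv_mem u.2) x hx
    simpa [mem_subgroupOf] using this
  have hZn := hn Z hZ
  have hMn := hn M hM
  have hQ : IsPGroup p (U ⧸ Z.subgroupOf U) := by
    intro q
    obtain ⟨u, rfl⟩ := QuotientGroup.mk_surjective q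
    obtain ⟨j, hj⟩ := hp u u.2
    refine ⟨j, ?_⟩
    rw [← QuotientGroup.mk_pow, QuotientGroup.eq_one_iff]
    simpa [mem_subgroupOf] using hj
  have := hQ.isNilpotent
  have hSn : ((M.subgroupOf U).map (QuotientGroup.mk' (Z.subgroupOf U))).Normal :=
    hMn.map _ (QuotientGroup.mk'_surjective _)
  obtain ⟨a', ha1, ha2, ha3⟩ := nil_center
    ((M.subgroupOf U).map (QuotientGroup.mk' (Z.subgroupOf U))) (by
      intro h
      apply hne
      intro x hx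
      rw [Subgroup.map_eq_bot_iff, QuotientGroup.ker_mk'] at h
      exact h (show (⟨x, hMU hx⟩ : U) ∈ M.subgroupOf U from hx))
  obtain ⟨a, ha, rfl⟩ := ha1
  refine ⟨a, ha, fun h => ha2 ((QuotientGroup.eq_one_iff a).2 h), fun u hu => ?_⟩
  have h1 := mem_center_iff.1 ha3 (QuotientGroup.mk ⟨u, hu⟩)
  rw [QuotientGroup.mk'_apply, ← QuotientGroup.mk_mul, ← QuotientGroup.mk_mul, eq_comm,
    QuotientGroup.eq] at h1
  simpa [mem_subgroupOf, mul_assoc] using h1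

lemma descent {N : Subgroup G} [hN : N.Normal] {K O : Subgroup G} [hKn : K.Normal]
    [hOn : O.Normal] (hON : O ≤ N) (hKN : K ≤ N) {p : ℕ} [Fact p.Prime] (d : ℕ)
    (hend : ∀ U : Subgroup G, O ≤ U → ¬ d ∣ U.index → K ≤ U) {θ : G → ℂ} (hθ : IsIrr N θ)
    (n : ℕ) : ∀ (U : Subgroup G) (β : G → ℂ), Nat.card ↥(U ⊓ N) = n → O ≤ U →
      (∀ u ∈ U, ∃ j, u ^ p ^ j ∈ O) → IsIrr (U ⊓ N) β → (∀ u ∈ U, u • β = β) →
      (∀ o ∈ O, Scal (U ⊓ N) β o 1) → ¬ d ∣ U.index * deg β → ip (U ⊓ N) θ β ≠ 0 →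
      ∀ x ∈ ⁅K, K⁆, Scal N θ x 1 := by
  induction n using Nat.strong_induction_on with
  | _ n ih =>
    intro U β hn hOU hUp hβ hinv hOβ hd hip
    set M := U ⊓ N with hM
    have hMz : ∀ u ∈ U, Nz M u := by
      intro u hu x
      simp only [hM, mem_inf]
      rw [nz_of_mem hu x, nz_of_normal N u x]
    by_cases hc : M ≤ cenS M β
    · have hKU : K ≤ U := hend U hOU (fun h => hd (Dvd.dvd.mul_right h _))
      have hKM : K ≤ M := le_inf hKU hKN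
      have hD : ⁅K, K⁆ ≤ kerS M β := by
        rw [commutator_le]
        intro x hx y hy
        exact comm_ker (hc (hKM hx)) (hc (hKM hy))
      have hDM : ⁅K, K⁆ ≤ M := (commutator_le_left _ _).trans hKM
      intro x hx
      apply fix_ker (hDM.trans inf_le_right) (fun y _ => nz_of_normal _ y) hθ _ hx
      apply ip_trans hDM (hθ.isChar.mono inf_le_right) hβ (isChar_one _) hip
      rw [ip_one_of_ker hD]
      exact hβ.one_ne
    have hZc : ∀ u ∈ U, ∀ x ∈ cenS M β, u⁻¹ * x * u ∈ cenS M β := by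
      rintro u hu x ⟨hx, z, hz0, hz⟩
      exact ⟨(hMz u hu x).2 hx, z, hz0, hz.conj (hMz u hu) (hinv u hu)⟩
    have hRc : ∀ u ∈ U, ∀ x ∈ kerS M β, u⁻¹ * x * u ∈ kerS M β := by
      rintro u hu x ⟨hx, hz⟩
      exact ⟨(hMz u hu x).2 hx, hz.conj (hMz u hu) (hinv u hu)⟩
    have hOM : O ≤ M := le_inf hOU hON
    have hOR : O ≤ kerS M β := fun o ho => ⟨hOM ho, hOβ o ho⟩
    obtain ⟨a, haM, haZ, ha⟩ := exists_central (p := p) (U := U) (M := M) (Z := cenS M β)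
      inf_le_left (fun u hu x hx => (hMz u hu x).2 hx) hZc (fun u hu => by
        obtain ⟨j, hj⟩ := hUp u hu
        exact ⟨j, hOM hj, 1, one_ne_zero, hOβ _ hj⟩) hc
    have haU : a ∈ U := haM.1
    let N1 : Subgroup G :=
      { carrier := {x | x ∈ M ∧ x⁻¹ * a⁻¹ * x * a ∈ kerS M β}
        mul_mem' := fun {x y} hx hy => ⟨M.mul_mem hx.1 hy.1, by
          have := (kerS M β).mul_mem (hRc y hy.1.1 _ hx.2) hy.2
          have e : y⁻¹ * (x⁻¹ * a⁻¹ * x * a) * y * (y⁻¹ * a⁻¹ * y * a)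
              = (x * y)⁻¹ * a⁻¹ * (x * y) * a := by group
          rwa [e] at this⟩
        one_mem' := ⟨M.one_mem, by simp⟩
        inv_mem' := fun {x} hx => ⟨M.inv_mem hx.1, by
          have := hRc x⁻¹ (U.inv_mem hx.1.1) _ ((kerS M β).inv_mem hx.2)
          have e : x⁻¹⁻¹ * (x⁻¹ * a⁻¹ * x * a)⁻¹ * x⁻¹ = x⁻¹⁻¹ * a⁻¹ * x⁻¹ * a := by group
          rwa [e] at this⟩ }
    have hN1 : ∀ x, x ∈ N1 ↔ x ∈ M ∧ x⁻¹ * a⁻¹ * x * a ∈ kerS M β := fun x => Iff.rfl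
    have hN1M : N1 ≤ M := fun x hx => hx.1
    have hcen : ∀ z ∈ cenS M β, ∀ u ∈ U, ∀ w ∈ kerS M β, u⁻¹ * z⁻¹ * u * w * z ∈ kerS M β := by
      rintro z ⟨hz, c, hc0, hc1⟩ u hu w hw
      refine ⟨M.mul_mem (M.mul_mem ((hMz u hu _).2 (M.inv_mem hz)) hw.1) hz, ?_⟩
      have := (((hc1.inv hc0 hz).conj (hMz u hu) (hinv u hu)).mul hw.2 hw.1).mul hc1 hz
      rwa [mul_one, inv_mul_cancel₀ hc0] at this
    have hZN1 : cenS M β ≤ N1 := by
      intro z hz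
      refine ⟨hz.1, ?_⟩
      have := (kerS M β).inv_mem (hcen z hz a haU 1 (kerS M β).one_mem)
      have e : (a⁻¹ * z⁻¹ * a * 1 * z)⁻¹ = z⁻¹ * a⁻¹ * z * a := by group
      rwa [e] at this
    have hN1c : ∀ u ∈ U, ∀ x ∈ N1, u⁻¹ * x * u ∈ N1 := by
      intro u hu x hx
      refine ⟨(hMz u hu x).2 hx.1, ?_⟩
      have h1 := (cenS M β).inv_mem (ha u⁻¹ (U.inv_mem hu))
      have h2 := hRc u hu _ (hcen _ h1 x hx.1.1 _ hx.2)
      have e : u⁻¹ * (x⁻¹ * (u⁻¹⁻¹ * a⁻¹ * u⁻¹ * a)⁻¹⁻¹ * x * (x⁻¹ * a⁻¹ * x * a) *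
          (u⁻¹⁻¹ * a⁻¹ * u⁻¹ * a)⁻¹) * u = (u⁻¹ * x * u)⁻¹ * a⁻¹ * (u⁻¹ * x * u) * a := by group
      rwa [e] at h2
    have hN1z : ∀ u ∈ U, Nz N1 u := by
      intro u hu x
      refine ⟨fun h => ?_, hN1c u hu x⟩
      have := hN1c u⁻¹ (U.inv_mem hu) _ h
      simpa [mul_assoc] using this
    have hON1 : O ≤ N1 := by
      intro o ho
      refine ⟨hOM ho, hOR ?_⟩
      have := O.mul_mem (O.inv_mem ho) ((nz_of_normal O a o).2 ho)
      simpa [mul_assoc] using this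
    have haN1 : a ∈ N1 := ⟨haM, by simp⟩
    have hlt : N1 < M := by
      refine lt_of_le_of_ne hN1M (fun h => haZ ?_)
      obtain ⟨z, hz⟩ := schur_elt hβ haM (fun x hx => by
        have : x ∈ N1 := h ▸ hx
        exact this.2.2)
      exact ⟨haM, z, hz.ne_zero hβ haM, hz⟩
    obtain ⟨β', hβ', hip', hd'⟩ := step (hβ.isChar.mono hN1M) hN1z hinv d hd
    have hcs : ∀ x ∈ N1, ∀ z, Scal M β x z → Scal N1 β' x z :=
      fun x hx z hz => cons_scal hN1M hβ.isChar hβ' hip' hx hz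
    have heq : (U ⊓ MulAction.stabilizer G β') ⊓ N = N1 := by
      apply le_antisymm
      · rintro x ⟨⟨hxU, hxs⟩, hxN⟩
        refine ⟨⟨hxU, hxN⟩, ?_⟩
        obtain ⟨hcM, z, hz0, hz⟩ := ha x hxU
        have hcN1 := hZN1 ⟨hcM, z, hz0, hz⟩
        have h1 := hcs _ hcN1 z hz _ (N1.inv_mem haN1)
        obtain ⟨l, hl⟩ := schur_elt hβ' haN1 (fun y hy =>
          hcs _ (hZN1 (ha y hy.1.1)) 1 hy.2.2)
        have h2 : β' a⁻¹ ≠ 0 := by
          intro h0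
          have := hl _ (N1.inv_mem haN1)
          rw [h0, mul_zero, mul_inv_cancel] at this
          exact hβ'.one_ne this
        have h3 := congrFun (show x • β' = β' from hxs) a⁻¹
        rw [cj_apply] at h3
        rw [mul_inv_cancel_right, h3] at h1
        have h4 : z = 1 := mul_right_cancel₀ h2 (by rw [one_mul]; exact h1.symm)
        exact ⟨hcM, h4 ▸ hz⟩
      · intro x hx
        exact ⟨⟨hx.1.1, hβ'.cj_mem hx⟩, hx.1.2⟩
    refine ih (Nat.card N1) ?_ (U ⊓ MulAction.stabilizer G β') β' (by rw [heq]) ?_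
      (fun u hu => hUp u hu.1) (heq ▸ hβ') (fun u hu => hu.2) ?_ hd' ?_
    · rw [← hn]
      exact Set.ncard_lt_ncard (s := (N1 : Set G)) (t := (M : Set G)) hlt (Set.toFinite _)
    · exact fun o ho => ⟨hOU ho, hβ'.cj_mem (hON1 ho)⟩
    · rw [heq]
      exact fun o ho => hcs o (hON1 ho) 1 (hOβ o ho)
    · rw [heq]
      exact ip_trans hN1M (hθ.isChar.mono inf_le_right) hβ hβ'.isChar hip hip'

end Pool.Agent.P.MP_d0f95c_al
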