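import Pool.Agent.P.MP_d0f95c_al.Descent
import Pool.Agent.P.MP_d0f95c_al.Defs

set_option autoImplicit false

open Subgroup Module

namespace Pool.Agent.P.MP_d0f95c_al

open scoped Classical

variable {G : Type} [Group G] [Fintype G]

attribute [local instance] cjAction

/-- the subgroup generated by the elements of `K` of order prime to `p` -/
def Op (K : Subgroup G) (p : ℕ) : Subgroup G := closure {x | x ∈ K ∧ (orderOf x).Coprime p}

omit [Fintype G] in
lemma Op_le (K : Subgroup G) (p : ℕ) : Op K p ≤ K := (closure_le _).2 (fun _ hx => hx.1)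

omit [Fintype G] in
lemma Op_normal (K : Subgroup G) [hK : K.Normal] (p : ℕ) : (Op K p).Normal := by
  refine ⟨fun x hx g => ?_⟩
  induction hx using closure_induction with
  | mem y hy =>
    refine subset_closure ⟨hK.conj_mem _ hy.1 g, ?_⟩
    have := (MulAut.conj g).orderOf_eq y
    rw [MulAut.conj_apply] at this
    rw [this]; exact hy.2
  | one => simp
  | mul a b _ _ ha hb =>
    have := (Op K p).mul_mem ha hb
    simpa [mul_assoc] using this
  | inv a _ ha =>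
    have := (Op K p).inv_mem ha
    simpa [mul_assoc] using this

lemma Op_pow (K : Subgroup G) {p : ℕ} (hp : p.Prime) {x : G} (hx : x ∈ K) :
    ∃ j, x ^ p ^ j ∈ Op K p := by
  refine ⟨(orderOf x).factorization p, subset_closure ⟨K.pow_mem hx _, ?_⟩⟩
  have h0 := (orderOf_pos x).ne'
  rw [orderOf_pow' _ (pow_pos hp.pos _).ne', Nat.gcd_eq_right (Nat.ordProj_dvd _ _)]
  exact (Nat.coprime_ordCompl hp h0).symm

omit [Fintype G] in
lemma Op_hom (K : Subgroup G) (p : ℕ) (C : Type) [Group C] (hC : IsPGroup p C)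
    (σ : Op K p →* C) (x : Op K p) : σ x = 1 := by
  obtain ⟨x, hx⟩ := x
  induction hx using closure_induction with
  | mem y hy =>
    rw [← orderOf_eq_one_iff]
    have h1 : orderOf (σ ⟨y, subset_closure hy⟩) ∣ orderOf y :=
      (orderOf_map_dvd σ _).trans (by rw [← Subgroup.orderOf_coe])
    exact Nat.Coprime.eq_one_of_dvd (hC.orderOf_coprime hy.2.symm _) h1
  | one => exact map_one σ
  | mul a b ha' hb' ha hb =>
    have := map_mul σ ⟨a, ha'⟩ ⟨b, hb'⟩
    rw [ha, hb, one_mul] at this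
    exact this
  | inv a ha' ha =>
    have := map_inv σ ⟨a, ha'⟩
    rw [ha, inv_one] at this
    exact this

lemma relIndex_dvd_pow {K O : Subgroup G} [O.Normal] {q : ℕ} (h : ∀ x ∈ K, ∃ j, x ^ q ^ j ∈ O) :
    ∃ n, O.relIndex K ∣ q ^ n := by
  have h1 : IsPGroup q (K.map (QuotientGroup.mk' O)) := by
    rintro ⟨_, x, hx, rfl⟩
    obtain ⟨j, hj⟩ := h x hx
    refine ⟨j, Subtype.ext ?_⟩
    simpa [← QuotientGroup.mk_pow] using hj
  obtain ⟨n, hn⟩ := isPGroup_iff_card_dvd_pow.1 h1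
  refine ⟨n, ?_⟩
  rwa [← relIndex_ker, QuotientGroup.ker_mk'] at hn

lemma Op_card {N : Subgroup G} [hN : N.Normal] {f : ℕ} (h : Hyp N f) {p : ℕ} (hp : p.Prime)
    (hpf : p ∣ f) : ¬ p ∣ Nat.card (Op ⁅N, (⊤ : Subgroup G)⁆ p) := by
  set K := ⁅N, (⊤ : Subgroup G)⁆ with hK
  have := Fact.mk hp
  have := Op_normal K p
  apply tate p (Op K p) (fun C _ hC σ x => Op_hom K p C hC σ x)
  intro P U hUP hU
  have h1 := hp_lemma h hp (a := 1) (by simpa using hpf) U (by
    rw [← relIndex_mul_index hUP, hU, pow_succ', pow_one]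
    exact fun h2 => P.not_dvd_index (Nat.dvd_of_mul_dvd_mul_left hp.pos h2))
  have h2 := relIndex_mul_relIndex (U ⊓ K) (K ⊓ P) K
    (le_inf inf_le_right (inf_le_left.trans hUP)) inf_le_left
  rw [inf_relIndex_right] at h2
  have h3 : IsPGroup p ↥(K ⊓ P) := P.isPGroup'.to_inf_right
  obtain ⟨j, hj⟩ := h3.index ((U ⊓ K).subgroupOf (K ⊓ P))
  have h4 : (U ⊓ K).relIndex (K ⊓ P) = 1 := by
    rcases Nat.eq_zero_or_pos j with h5 | h5
    · rw [relIndex, hj, h5, pow_zero]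
    · exfalso
      apply h1
      rw [← h2, relIndex, hj]
      exact Dvd.dvd.mul_right (dvd_pow_self p h5.ne') _
  exact (inf_le_inf_right _ (Op_le K p)).trans ((relIndex_eq_one.1 h4).trans inf_le_left)

lemma comm_le_Op {N : Subgroup G} [hN : N.Normal] {f : ℕ} (hf : 0 < f) (h : Hyp N f) {p : ℕ}
    (hp : p.Prime) :
    ⁅⁅N, (⊤ : Subgroup G)⁆, ⁅N, (⊤ : Subgroup G)⁆⁆ ≤ Op ⁅N, (⊤ : Subgroup G)⁆ p := by
  set K := ⁅N, (⊤ : Subgroup G)⁆ with hK
  have hKN : K ≤ N := commutator_le_left _ _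
  have := Fact.mk hp
  have := Op_normal K p
  set O := Op K p with hO
  have hON : O ≤ N := (Op_le K p).trans hKN
  set a := f.factorization p with ha
  have ha1 : p ^ a ∣ f := Nat.ordProj_dvd _ _
  have ha2 : ¬ p ^ (a + 1) ∣ f := Nat.pow_succ_factorization_not_dvd hf.ne' hp
  intro x hx
  apply sep hON (((commutator_le_left _ _).trans hKN) hx)
  intro θ hθ hOθ
  have hend : ∀ U : Subgroup G, O ≤ U → ¬ p ^ (a + 1) ∣ U.index → K ≤ U := by
    intro U hOU hU
    have h1 := hp_lemma h hp ha1 U hU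
    obtain ⟨n, hn⟩ := relIndex_dvd_pow (K := K) (O := O) (fun y hy => Op_pow K hp hy)
    have h2 := (relIndex_dvd_of_le_left K hOU).trans hn
    rw [← relIndex_eq_one]
    exact Nat.Coprime.eq_one_of_dvd
      (Nat.Coprime.pow_right n ((hp.coprime_iff_not_dvd.2 h1).symm)) h2
  set I := MulAction.stabilizer G θ with hI
  have hNI : N ≤ I := fun y hy => hθ.cj_mem hy
  obtain ⟨P⟩ : Nonempty (Sylow p I) := inferInstance
  set P' : Subgroup G := (P : Subgroup I).map I.subtype with hP'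
  set U : Subgroup G := P' ⊔ O with hU
  have hUI : U ≤ I := sup_le (map_subtype_le _) (hON.trans hNI)
  have hUp : ∀ u ∈ U, ∃ j, u ^ p ^ j ∈ O := by
    intro u hu
    have h1 : IsPGroup p (U.map (QuotientGroup.mk' O)) := by
      rw [hU, Subgroup.map_sup, (Subgroup.map_eq_bot_iff O).2 (by rw [QuotientGroup.ker_mk']),
        sup_bot_eq]
      exact (P.isPGroup'.map _).map _
    obtain ⟨j, hj⟩ := h1 ⟨_, u, hu, rfl⟩
    refine ⟨j, ?_⟩
    have := congrArg Subtype.val hj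
    simpa [← QuotientGroup.mk_pow] using this
  have hd : ¬ p ^ (a + 1) ∣ U.index * deg θ := by
    intro h1
    rw [← relIndex_mul_index hUI, mul_assoc] at h1
    have h2 : ¬ p ∣ U.relIndex I := by
      intro h3
      apply P.not_dvd_index
      refine h3.trans ((relIndex_dvd_of_le_left I (le_sup_left : P' ≤ U)).trans ?_)
      rw [relIndex, subgroupOf, hP', comap_map_eq_self_of_injective (subtype_injective _)]
    have h3 := (Nat.Coprime.pow_left (a + 1) (hp.coprime_iff_not_dvd.2 h2)).dvd_of_dvd_mul_left h1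
    rcases h θ hθ with h4 | h4
    · rw [h4] at h3
      exact ha2 (h3.trans (one_dvd f))
    · rw [h4] at h3
      exact ha2 h3
  have hMz : ∀ u ∈ U, Nz (U ⊓ N) u := by
    intro u hu x
    simp only [mem_inf]
    rw [nz_of_mem hu x, nz_of_normal N u x]
  obtain ⟨β, hβ, hip, hd'⟩ := step (hθ.isChar.mono (inf_le_right : U ⊓ N ≤ N)) hMz
    (fun u hu => hUI hu) _ hd
  have heq : (U ⊓ MulAction.stabilizer G β) ⊓ N = U ⊓ N :=
    le_antisymm (inf_le_inf_right _ inf_le_left)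
      (fun y hy => ⟨⟨hy.1, hβ.cj_mem hy⟩, hy.2⟩)
  have hOM : O ≤ U ⊓ N := le_inf le_sup_right hON
  refine descent hON hKN (p := p) _ hend hθ _ (U ⊓ MulAction.stabilizer G β) β rfl
    (fun o ho => ⟨(hOM ho).1, hβ.cj_mem (hOM ho)⟩) (fun u hu => hUp u hu.1) (heq ▸ hβ)
    (fun u hu => hu.2) ?_ hd' (heq ▸ hip) x hx
  rw [heq]
  exact fun o ho => cons_scal inf_le_right hθ.isChar hβ hip (hOM ho) (hOθ o ho)

theorem core {N : Subgroup G} [hN : N.Normal] {f : ℕ} (hf : 0 < f) (h : Hyp N f) :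
    ∀ x ∈ ⁅N, (⊤ : Subgroup G)⁆, ∀ y ∈ ⁅N, (⊤ : Subgroup G)⁆, x * y = y * x := by
  have hcomm := fun (p : ℕ) (hp : p.Prime) => comm_le_Op hf h hp
  have hcard := fun (p : ℕ) (hp : p.Prime) (hpf : p ∣ f) => Op_card h hp hpf
  have hhp := fun (p a : ℕ) (hp : p.Prime) (ha : p ^ a ∣ f) => hp_lemma h hp ha
  set K := ⁅N, (⊤ : Subgroup G)⁆ with hK
  have hKN : K ≤ N := commutator_le_left _ _
  set A : Subgroup G := K ⊓ ⨅ p ∈ f.primeFactors, Op K p with hA
  have hmem : ∀ x, x ∈ A ↔ x ∈ K ∧ ∀ p ∈ f.primeFactors, x ∈ Op K p := by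
    intro x; simp [hA, mem_iInf]
  have hAn : A.Normal := ⟨fun x hx g => by
    rw [hmem] at hx ⊢
    exact ⟨Normal.conj_mem inferInstance _ hx.1 g,
      fun p hp => (Op_normal K p).conj_mem _ (hx.2 p hp) g⟩⟩
  have hAK : A ≤ K := inf_le_left
  have hAN : A ≤ N := hAK.trans hKN
  have hcop : (Nat.card A).Coprime f := by
    apply Nat.Coprime.symm
    apply Nat.coprime_of_dvd
    intro p hp hpf hpA
    apply hcard p hp hpf
    refine hpA.trans (card_dvd_of_le (fun x hx => ((hmem x).1 hx).2 p ?_))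
    exact Nat.mem_primeFactors.2 ⟨hp, hpf, hf.ne'⟩
  have hpow : ∀ x ∈ K, ∃ j, x ^ f ^ j ∈ A := by
    intro x hx
    have h1 : ∀ p : ℕ, ∃ j, p.Prime → x ^ p ^ j ∈ Op K p := by
      intro p
      by_cases hp : p.Prime
      · obtain ⟨j, hj⟩ := Op_pow K hp hx
        exact ⟨j, fun _ => hj⟩
      · exact ⟨0, fun h => absurd h hp⟩
    choose j hj using h1
    refine ⟨∑ p ∈ f.primeFactors, j p, (hmem _).2 ⟨K.pow_mem hx _, fun p hp => ?_⟩⟩
    have h2 : p ^ j p ∣ f ^ ∑ p ∈ f.primeFactors, j p :=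
      (pow_dvd_pow_of_dvd (Nat.dvd_of_mem_primeFactors hp) _).trans
        (pow_dvd_pow f (Finset.single_le_sum (fun _ _ => Nat.zero_le _) hp))
    obtain ⟨c, hc⟩ := h2
    rw [hc, pow_mul]
    exact (Op K p).pow_mem (hj p (Nat.prime_of_mem_primeFactors hp)) c
  have hlin : ∀ μ, IsIrr A μ → deg μ = 1 := by
    intro μ hμ
    exact Nat.Coprime.eq_one_of_dvd
      (Nat.Coprime.coprime_dvd_left (deg_dvd hμ) hcop)
      ((Dvd.intro_left _ rfl).trans (orbit_deg_dvd hAN h hμ))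
  have hstab : ∀ μ, IsIrr A μ → K ≤ MulAction.stabilizer G μ := by
    intro μ hμ
    rw [← relIndex_eq_one]
    by_contra hne
    obtain ⟨p, hp, hpd⟩ := Nat.exists_prime_and_dvd hne
    obtain ⟨n, hn⟩ := relIndex_dvd_pow hpow
    have hAT : A ≤ MulAction.stabilizer G μ := fun y hy => hμ.cj_mem hy
    have hpf : p ∣ f := hp.dvd_of_dvd_pow (hpd.trans ((relIndex_dvd_of_le_left K hAT).trans hn))
    refine hhp p _ hp (Nat.ordProj_dvd f p) _ (fun h1 => ?_) hpd
    exact Nat.pow_succ_factorization_not_dvd hf.ne' hp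
      (h1.trans ((Dvd.intro _ rfl).trans (orbit_deg_dvd hAN h hμ)))
  have hcent : ∀ k ∈ K, ∀ a ∈ A, k * a = a * k := by
    intro k hk a ha
    have hka : k⁻¹ * a * k ∈ A := (nz_of_normal A k a).2 ha
    have h1 : a⁻¹ * (k⁻¹ * a * k) ∈ (⊥ : Subgroup G) := by
      apply sep bot_le (A.mul_mem (A.inv_mem ha) hka)
      intro μ hμ _
      have h2 := linear_scal hμ.isChar (hlin μ hμ) ha
      have h0 := h2.ne_zero hμ ha
      have h3 := (h2.inv h0 ha).mul (h2.conj (nz_of_normal A k) (hstab μ hμ hk)) hka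
      rwa [inv_mul_cancel₀ h0] at h3
    rw [mem_bot, inv_mul_eq_one] at h1
    conv_lhs => rw [h1]
    group
  intro x hx y hy
  have hc : x * y * x⁻¹ * y⁻¹ ∈ A := by
    have h1 : x * y * x⁻¹ * y⁻¹ ∈ ⁅K, K⁆ := commutator_mem_commutator hx hy
    exact (hmem _).2 ⟨commutator_le_left _ _ h1,
      fun p hp => hcomm p (Nat.prime_of_mem_primeFactors hp) h1⟩
  set c := x * y * x⁻¹ * y⁻¹ with hcdef
  have h1 : ∀ m : ℕ, x ^ m * y = c ^ m * y * x ^ m := by
    intro m
    induction m with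
    | zero => simp
    | succ m ih =>
      have h2 : x * c ^ m = c ^ m * x := hcent x hx _ (A.pow_mem hc m)
      rw [pow_succ', mul_assoc, ih, ← mul_assoc, ← mul_assoc, h2, pow_succ c, hcdef]
      group
  obtain ⟨j, hj⟩ := hpow x hx
  have h2 : c ^ f ^ j = 1 := by
    have h3 := h1 (f ^ j)
    rw [← hcent y hy _ hj, mul_assoc] at h3
    exact (right_eq_mul.1 h3)
  have h3 : orderOf c = 1 :=
    Nat.Coprime.eq_one_of_dvd
      (Nat.Coprime.coprime_dvd_left (orderOf_dvd_natCard A hc) (hcop.pow_right j))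
      (orderOf_dvd_of_pow_eq_one h2)
  rw [orderOf_eq_one_iff, hcdef, mul_inv_eq_one, mul_inv_eq_iff_eq_mul] at h3
  exact h3

lemma hyp_of {N : Subgroup G} [hN : N.Normal] {f : ℕ} (h : mcdSet N = {1, (f : ℂ)}) :
    Hyp N f := by
  intro θ hθ
  have hdeg := hθ.isChar.deg_eq
  have hip := ip_irr hθ hθ
  have hcj := fun g : G => (hθ.cj (nz_of_normal N g)).2
  obtain ⟨⟨V, _, _, _, ρ, hρ, h1⟩, h2⟩ := hθ
  have hs : CategoryTheory.Simple (FDRep.of ρ) := by
    rw [FDRep.simple_iff_char_is_norm_one]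
    rw [if_pos rfl] at hip
    unfold ip at hip
    rw [inv_mul_eq_one₀ (card_ne N)] at hip
    rw [hip]
    apply Finset.sum_congr rfl
    intro x _
    rw [h1 x, show θ (x : G)⁻¹ = ρ.character x⁻¹ from h1 x⁻¹]
    rfl
  have hm : orbitTotal N ρ.character 1 ∈ mcdSet N := ⟨ρ.character, ⟨FDRep.of ρ, hs, rfl⟩, rfl⟩
  have hr : Set.range (conjBy N ρ.character)
      = (fun (ψ : G → ℂ) (x : N) => ψ x) '' MulAction.orbit G θ := by
    ext φ
    constructor
    · rintro ⟨g, rfl⟩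
      refine ⟨g⁻¹ • θ, ⟨g⁻¹, rfl⟩, ?_⟩
      funext x
      simp only [cj_apply, conjBy, inv_inv]
      exact h1 ⟨_, _⟩
    · rintro ⟨_, ⟨g, rfl⟩, rfl⟩
      refine ⟨g⁻¹, ?_⟩
      funext x
      simp only [cj_apply, conjBy, inv_inv]
      exact (h1 ⟨_, _⟩).symm
  have hinj : Set.InjOn (fun (ψ : G → ℂ) (x : N) => ψ x) (MulAction.orbit G θ) := by
    rintro _ ⟨g, rfl⟩ _ ⟨g', rfl⟩ he
    funext x
    by_cases hx : x ∈ N
    · exact congrFun he ⟨x, hx⟩
    · exact (hcj g x hx).trans (hcj g' x hx).symm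
  have hfin : (Set.range (conjBy N ρ.character)).Finite := Set.finite_range _
  have hval : orbitTotal N ρ.character 1
      = (((MulAction.stabilizer G θ).index * deg θ : ℕ) : ℂ) := by
    unfold orbitTotal
    rw [finsum_mem_eq_finite_toFinset_sum _ hfin, Finset.sum_apply,
      Finset.sum_congr rfl (g := fun _ => θ 1), Finset.sum_const, nsmul_eq_mul,
      ← Set.ncard_eq_toFinset_card _ hfin, hr, hinj.ncard_image, MulAction.index_stabilizer]
    · push_cast; rw [hdeg]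
    · intro φ hφ
      obtain ⟨g, rfl⟩ : φ ∈ Set.range (conjBy N ρ.character) := by simpa using hφ
      simp only [conjBy]
      rw [← h1]
      simp
  rw [h, hval] at hm
  rcases hm with h3 | h3
  · left; exact_mod_cast h3
  · right; exact_mod_cast Set.mem_singleton_iff.1 h3

theorem main (G : Type) [Group G] [Finite G] (N : Subgroup G) [N.Normal] (f : ℕ) (hf : 0 < f)
    (h : mcdSet N = {1, (f : ℂ)}) :
    ∀ x ∈ ⁅N, (⊤ : Subgroup G)⁆, ∀ y ∈ ⁅N, (⊤ : Subgroup G)⁆, x * y = y * x := by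
  have := Fintype.ofFinite G
  exact core hf (hyp_of h)

end Pool.Agent.P.MP_d0f95c_al
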