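import Pool.Agent.P.MP_d0f95c_al.Char2

set_option autoImplicit false

open Subgroup Module

namespace Pool.Agent.P.MP_d0f95c_al

open scoped Classical

variable {G : Type} [Group G] [Fintype G]

attribute [local instance] cjAction

omit [Fintype G] in
lemma Scal.mul {H : Subgroup G} {χ : G → ℂ} {x y : G} {a b : ℂ} (hx : Scal H χ x a)
    (hy : Scal H χ y b) (hy' : y ∈ H) : Scal H χ (x * y) (a * b) := by
  intro w hw
  rw [mul_assoc, hx _ (H.mul_mem hy' hw), hy w hw, mul_assoc]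

omit [Fintype G] in
lemma Scal.inv {H : Subgroup G} {χ : G → ℂ} {x : G} {a : ℂ} (hx : Scal H χ x a) (ha : a ≠ 0)
    (hx' : x ∈ H) : Scal H χ x⁻¹ a⁻¹ := by
  intro w hw
  have := hx _ (H.mul_mem (H.inv_mem hx') hw)
  rw [mul_inv_cancel_left] at this
  rw [this]; field_simp

omit [Fintype G] in
lemma Scal.cj {H : Subgroup G} {χ : G → ℂ} {x u : G} {a : ℂ} (hx : Scal H χ x a) (hu : Nz H u) :
    Scal H (u • χ) (u * x * u⁻¹) a := by
  intro w hw
  rw [cj_apply, cj_apply, ← hx _ ((hu w).2 hw)]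
  congr 1
  group

omit [Fintype G] in
lemma Scal.conj {H : Subgroup G} {χ : G → ℂ} {x u : G} {a : ℂ} (hx : Scal H χ x a) (hu : Nz H u)
    (h : u • χ = χ) : Scal H χ (u⁻¹ * x * u) a := by
  have h1 := hx.cj hu.inv
  have h2 : u⁻¹ • χ = χ := by rw [inv_smul_eq_iff, h]
  simpa [h2] using h1

omit [Fintype G] in
lemma Scal.ne_zero {H : Subgroup G} {χ : G → ℂ} {x : G} {a : ℂ} (hx : Scal H χ x a)
    (h : IsIrr H χ) (hx' : x ∈ H) : a ≠ 0 := by
  rintro rfl
  have := hx _ (H.inv_mem hx')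
  rw [mul_inv_cancel, zero_mul] at this
  exact h.one_ne this

def kerS (H : Subgroup G) (χ : G → ℂ) : Subgroup G where
  carrier := {x | x ∈ H ∧ Scal H χ x 1}
  mul_mem' := fun ha hb => ⟨H.mul_mem ha.1 hb.1, by simpa using ha.2.mul hb.2 hb.1⟩
  one_mem' := ⟨H.one_mem, fun y _ => by simp⟩
  inv_mem' := fun ha => ⟨H.inv_mem ha.1, by simpa using ha.2.inv one_ne_zero ha.1⟩

def cenS (H : Subgroup G) (χ : G → ℂ) : Subgroup G where
  carrier := {x | x ∈ H ∧ ∃ z, z ≠ 0 ∧ Scal H χ x z}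
  mul_mem' := fun ⟨ha, a, ha0, ha1⟩ ⟨hb, b, hb0, hb1⟩ =>
    ⟨H.mul_mem ha hb, a * b, mul_ne_zero ha0 hb0, ha1.mul hb1 hb⟩
  one_mem' := ⟨H.one_mem, 1, one_ne_zero, fun y _ => by simp⟩
  inv_mem' := fun ⟨ha, a, ha0, ha1⟩ => ⟨H.inv_mem ha, a⁻¹, inv_ne_zero ha0, ha1.inv ha0 ha⟩

omit [Fintype G] in
lemma comm_ker {H : Subgroup G} {χ : G → ℂ} {x y : G} (hx : x ∈ cenS H χ) (hy : y ∈ cenS H χ) :
    x * y * x⁻¹ * y⁻¹ ∈ kerS H χ := by
  obtain ⟨hx, a, ha0, ha⟩ := hx
  obtain ⟨hy, b, hb0, hb⟩ := hy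
  refine ⟨H.mul_mem (H.mul_mem (H.mul_mem hx hy) (H.inv_mem hx)) (H.inv_mem hy), ?_⟩
  have := ((ha.mul hb hy).mul (ha.inv ha0 hx) (H.inv_mem hx)).mul (hb.inv hb0 hy) (H.inv_mem hy)
  have e : a * b * a⁻¹ * b⁻¹ = 1 := by field_simp
  rwa [e] at this

lemma ip_one_of_ker {H D : Subgroup G} {χ : G → ℂ} (h : D ≤ kerS H χ) :
    ip D χ (fun _ => 1) = χ 1 := by
  unfold ip
  have : ∀ x : D, χ x * 1 = χ 1 := by
    intro x
    have := (h x.2).2 1 H.one_mem
    simpa using this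
  simp only [this, Finset.sum_const, Finset.card_univ, nsmul_eq_mul]
  rw [← Nat.card_eq_fintype_card, ← mul_assoc, inv_mul_cancel₀ (card_ne D), one_mul]

lemma cons_dvd' {M U : Subgroup G} {χ : G → ℂ} {s : Multiset (G → ℂ)} (hs : Dec M χ s)
    (hχ' : IsChar M χ)
    (hU : ∀ u ∈ U, Nz M u) (hχ : ∀ u ∈ U, ∀ x ∈ M, (u • χ) x = χ x) (d c : ℕ)
    (hd : ∀ φ ∈ s, d ∣ (MulAction.stabilizer G φ).relIndex U * (c * deg φ)) :
    d ∣ c * deg χ := by
  have h1 := orbit_dvd (U := U) (X := G → ℂ) (fun φ => c * deg φ)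
    (fun u x => by rw [show deg (u • x) = deg x from deg_cj (u : G) x]) d _ s rfl
    (fun u φ => hs.count_cj (hU u u.2) (hχ u u.2) φ) hd
  rw [Multiset.sum_map_mul_left] at h1
  have h2 := hs.deg_sum
  rw [← hχ'.deg_eq] at h2
  have h3 : deg χ = (s.map deg).sum := by exact_mod_cast h2
  rw [h3]; exact h1

lemma sep {H O : Subgroup G} [hO : O.Normal] (hOH : O ≤ H) {x : G} (hx : x ∈ H)
    (h : ∀ ψ, IsIrr H ψ → (∀ o ∈ O, Scal H ψ o 1) → Scal H ψ x 1) : x ∈ O := by
  obtain ⟨s, hs⟩ := (isChar_perm O H).exists_dec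
  have h1 : ∀ o ∈ O, Scal H (perm O) o 1 := by
    intro o ho y _
    have : ∀ q : G ⧸ O, o • q = q := by
      intro q
      obtain ⟨g, rfl⟩ := QuotientGroup.mk_surjective q
      rw [MulAction.Quotient.smul_mk, QuotientGroup.eq]
      have := hO.conj_mem _ (O.inv_mem ho) g⁻¹
      simpa [mul_assoc] using this
    simp [perm, mul_smul, this]
  have h2 : perm O x = perm O 1 := by
    rw [hs.2 x hx, hs.2 1 H.one_mem]
    congr 1
    apply Multiset.map_congr rfl
    intro ψ hψ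
    have h3 := h ψ (hs.1 ψ hψ) (fun o ho => cons_scal le_rfl (isChar_perm O H) (hs.1 ψ hψ)
      ((hs.mem_iff (hs.1 ψ hψ)).1 hψ) (hOH ho) (h1 o ho)) 1 H.one_mem
    simpa using h3
  have h3 : (Finset.univ.filter (fun q : G ⧸ O => x • q = q)).card = Fintype.card (G ⧸ O) := by
    simp only [perm, one_smul, Finset.filter_true, Finset.card_univ] at h2
    exact_mod_cast h2
  rw [Finset.card_eq_iff_eq_univ, Finset.filter_eq_self] at h3
  have h4 := h3 (QuotientGroup.mk 1) (Finset.mem_univ _)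
  rw [MulAction.Quotient.smul_mk, QuotientGroup.eq] at h4
  simpa using h4

lemma ip_perm (U K : Subgroup G) [hK : K.Normal] :
    ip K (perm U) (fun _ => 1) * U.relIndex K = U.index := by
  have h1 : ∑ x : K, perm U x * 1 = U.index * Nat.card (U.subgroupOf K) := by
    simp only [perm, mul_one, Finset.card_filter]
    push_cast
    rw [Finset.sum_comm]
    have : ∀ q : G ⧸ U, (∑ x : K, if (x : G) • q = q then (1 : ℂ) else 0)
        = Nat.card (U.subgroupOf K) := by
      intro q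
      obtain ⟨g, rfl⟩ := QuotientGroup.mk_surjective q
      rw [Nat.card_eq_fintype_card, Fintype.card_subtype, Finset.card_filter]
      push_cast
      apply Fintype.sum_equiv (nzEquiv (nz_of_normal K g)).toEquiv
      intro x
      congr 1
      rw [MulAction.Quotient.smul_mk, QuotientGroup.eq, ← U.inv_mem_iff]
      simp [mem_subgroupOf, nzEquiv, mul_assoc]
    simp only [this, Finset.sum_const, Finset.card_univ, nsmul_eq_mul]
    rw [index_eq_card, Nat.card_eq_fintype_card (α := G ⧸ U)]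
  unfold ip
  rw [h1]
  have h2 : (Nat.card (U.subgroupOf K) : ℂ) * U.relIndex K = Nat.card K := by
    exact_mod_cast (U.subgroupOf K).card_mul_index
  have h3 := card_ne K
  rw [mul_assoc, mul_assoc, h2]
  field_simp

/-- the hypothesis -/
def Hyp (N : Subgroup G) (f : ℕ) : Prop :=
  ∀ θ, IsIrr N θ → (MulAction.stabilizer G θ).index * deg θ = 1 ∨
    (MulAction.stabilizer G θ).index * deg θ = f

omit [Fintype G] in
lemma lin_inv_ker {N : Subgroup G} [hN : N.Normal] {θ : G → ℂ} (hθ : IsIrr N θ)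
    (h : (MulAction.stabilizer G θ).index * deg θ = 1) : ⁅N, (⊤ : Subgroup G)⁆ ≤ kerS N θ := by
  have h1 : deg θ = 1 := Nat.eq_one_of_mul_eq_one_left h
  have h2 : MulAction.stabilizer G θ = ⊤ := index_eq_one.1 (Nat.eq_one_of_mul_eq_one_right h)
  rw [commutator_le]
  intro n hn g _
  have hs := linear_scal hθ.isChar h1 hn
  have hg : g⁻¹ • θ = θ := (show g⁻¹ ∈ MulAction.stabilizer G θ from h2 ▸ mem_top _)
  have h0 := hs.ne_zero hθ hn
  have h3 := (hs.inv h0 hn).conj (nz_of_normal N g⁻¹) hg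
  have hm : g⁻¹⁻¹ * n⁻¹ * g⁻¹ ∈ N := (nz_of_normal N g⁻¹ _).2 (N.inv_mem hn)
  have h4 := hs.mul h3 hm
  rw [mul_inv_cancel₀ h0] at h4
  have e : n * g * n⁻¹ * g⁻¹ = n * (g⁻¹⁻¹ * n⁻¹ * g⁻¹) := by group
  rw [commutatorElement_def, e]
  exact ⟨N.mul_mem hn hm, h4⟩

lemma star {N : Subgroup G} [hN : N.Normal] {f : ℕ} (h : Hyp N f) (U : Subgroup G) :
    ∃ n m : ℕ, n * U.relIndex ⁅N, (⊤ : Subgroup G)⁆ = U.index ∧ U.index = n + f * m := by
  set K := ⁅N, (⊤ : Subgroup G)⁆ with hK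
  have hKN : K ≤ N := commutator_le_left _ _
  obtain ⟨s, hs⟩ := (isChar_perm U N).exists_dec
  have hQ : ∀ (u : G) (φ : G → ℂ), K ≤ kerS N φ → K ≤ kerS N (u • φ) := by
    intro u φ h1 k hk
    have h2 := (h1 ((nz_of_normal K u k).2 hk)).2.cj (nz_of_normal N u)
    refine ⟨hKN hk, ?_⟩
    simpa [mul_assoc] using h2
  obtain ⟨m, hm⟩ := cons_dvd (U := ⊤) hs (fun u _ => nz_of_normal N u)
    (fun u _ x _ => by rw [perm_cj]) f (fun φ => ¬ K ≤ kerS N φ) (by
      intro u _ φ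
      rw [not_iff_not]
      exact ⟨fun h1 => by simpa using hQ u⁻¹ _ h1, hQ u φ⟩) (by
      intro φ hφ h1
      rw [relIndex_top_right]
      rcases h φ (hs.1 φ hφ) with h2 | h2
      · exact absurd (lin_inv_ker (hs.1 φ hφ) h2) h1
      · rw [h2])
  refine ⟨((s.filter (fun φ => K ≤ kerS N φ)).map deg).sum, m, ?_, ?_⟩
  · have h1 := ip_perm U K
    rw [ip_sum hKN hs.2] at h1
    have h2 : ∀ t : Multiset (G → ℂ), (∀ ψ ∈ t, IsIrr N ψ) →
        (t.map (fun ψ => ip K ψ (fun _ => 1))).sum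
          = (((t.filter (fun φ => K ≤ kerS N φ)).map deg).sum : ℕ) := by
      intro t
      induction t using Multiset.induction_on with
      | empty => simp
      | cons a t ih =>
        intro ht
        have ha := ht a (Multiset.mem_cons_self _ _)
        rw [Multiset.map_cons, Multiset.sum_cons, ih (fun ψ hψ => ht ψ (Multiset.mem_cons_of_mem hψ))]
        by_cases h3 : K ≤ kerS N a
        · rw [Multiset.filter_cons_of_pos (p := fun φ => K ≤ kerS N φ) _ h3, ip_one_of_ker h3, ← ha.isChar.deg_eq]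
          simp
        · rw [Multiset.filter_cons_of_neg (p := fun φ => K ≤ kerS N φ) _ h3]
          have : ip K a (fun _ => 1) = 0 := by
            by_contra h4
            exact h3 (fun k hk => ⟨hKN hk, fix_ker hKN (fun y _ => nz_of_normal K y) ha h4 hk⟩)
          rw [this, zero_add]
    rw [h2 s hs.1] at h1
    exact_mod_cast h1
  · have h1 := hs.deg_sum
    rw [perm_one] at h1
    have h2 : U.index = (s.map deg).sum := by exact_mod_cast h1
    rw [h2, ← hm, ← Multiset.sum_add, ← Multiset.map_add]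
    congr 2
    refine Eq.trans (Multiset.filter_add_not (fun φ => K ≤ kerS N φ) s).symm ?_
    congr

lemma hp_lemma {N : Subgroup G} [hN : N.Normal] {f : ℕ} (h : Hyp N f) {p a : ℕ} (hp : p.Prime)
    (ha : p ^ a ∣ f) (U : Subgroup G) (hU : ¬ p ^ (a + 1) ∣ U.index) :
    ¬ p ∣ U.relIndex ⁅N, (⊤ : Subgroup G)⁆ := by
  obtain ⟨n, m, h1, h2⟩ := star h U
  rintro ⟨r, hr⟩
  apply hU
  rw [hr] at h1
  have hr0 : p * r ≠ 0 := by
    intro h0
    rw [h0, mul_zero] at h1
    exact index_ne_zero_of_finite h1.symm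
  obtain ⟨t, ht⟩ := Nat.exists_eq_succ_of_ne_zero hr0
  have h3 : n * t = f * m := by
    rw [ht, h2, Nat.mul_succ] at h1
    omega
  have h4 : Nat.Coprime (p ^ a) t := by
    apply Nat.Coprime.pow_left
    rw [hp.coprime_iff_not_dvd]
    intro h5
    have h6 : p ∣ t + 1 := ⟨r, ht.symm⟩
    exact hp.one_lt.ne' (Nat.dvd_one.1 ((Nat.dvd_add_right h5).1 h6))
  have h5 : p ^ a ∣ n := h4.dvd_of_dvd_mul_right (h3 ▸ Dvd.dvd.mul_right ha m)
  rw [← h1, pow_succ, ← mul_assoc]
  exact Dvd.dvd.mul_right (Nat.mul_dvd_mul_right h5 p) r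

lemma orbit_deg_dvd {N A : Subgroup G} [hA : A.Normal] (hAN : A ≤ N) {f : ℕ}
    (h : Hyp N f) {μ : G → ℂ} (hμ : IsIrr A μ) :
    (MulAction.stabilizer G μ).index * deg μ ∣ f := by
  obtain ⟨s, hs⟩ := (isChar_perm ⊥ N).exists_dec
  have h1 : ip A (perm ⊥) μ ≠ 0 := by
    unfold ip
    apply mul_ne_zero (inv_ne_zero (card_ne A))
    rw [Finset.sum_eq_single 1]
    · simp only [OneMemClass.coe_one, inv_one, perm_one]
      exact mul_ne_zero (by exact_mod_cast index_ne_zero_of_finite) hμ.one_ne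
    · intro x _ hx
      have : perm ⊥ (x : G) = 0 := by
        simp only [perm, Nat.cast_eq_zero, Finset.card_eq_zero, Finset.filter_eq_empty_iff]
        intro q _ hq
        obtain ⟨g, rfl⟩ := QuotientGroup.mk_surjective q
        rw [MulAction.Quotient.smul_mk, QuotientGroup.eq] at hq
        apply hx
        apply Subtype.ext
        rw [mem_bot, inv_mul_eq_one] at hq
        simpa using hq
      rw [this, zero_mul]
    · simp
  rw [ip_sum hAN hs.2] at h1
  have h2 : ∃ θ ∈ s, ip A θ μ ≠ 0 := by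
    by_contra h3
    push Not at h3
    apply h1
    apply Multiset.sum_eq_zero
    intro z hz
    obtain ⟨θ, hθ, rfl⟩ := Multiset.mem_map.1 hz
    exact h3 θ hθ
  obtain ⟨θ, hθ, h3⟩ := h2
  have hθ' := hs.1 θ hθ
  set I := MulAction.stabilizer G θ with hI
  obtain ⟨t, ht⟩ := (hθ'.isChar.mono hAN).exists_dec
  have h4 := cons_dvd' (U := I) ht (hθ'.isChar.mono hAN) (fun u _ => nz_of_normal A u)
    (fun u hu x _ => by rw [show u • θ = θ from hu])
    ((MulAction.stabilizer G μ).relIndex I * deg μ) 1 (by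
      intro ν hν
      obtain ⟨y, hy, rfl⟩ := clifford hAN (fun y _ => nz_of_normal A y) hθ' hμ (ht.1 ν hν) h3
        ((ht.mem_iff (ht.1 ν hν)).1 hν)
      have hyI : y ∈ I := hθ'.cj_mem hy
      rw [deg_cj, one_mul, ← stab_index, ← stab_index, MulAction.index_stabilizer,
        MulAction.index_stabilizer]
      have := MulAction.orbit_smul (⟨y, hyI⟩ : I) μ
      rw [← this]
      rfl)
  rw [one_mul] at h4
  have h5 : (MulAction.stabilizer G μ).index ∣ (MulAction.stabilizer G μ).relIndex I * I.index := by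
    rw [← inf_relIndex_right, relIndex_mul_index inf_le_right]
    exact index_dvd_of_le inf_le_left
  have h6 : (MulAction.stabilizer G μ).index * deg μ ∣ I.index * deg θ := by
    refine (Nat.mul_dvd_mul_right h5 _).trans ?_
    rw [mul_comm _ I.index, mul_assoc]
    exact Nat.mul_dvd_mul_left _ h4
  rcases h θ hθ' with h7 | h7
  · exact h6.trans (h7 ▸ one_dvd f)
  · exact h7 ▸ h6

end Pool.Agent.P.MP_d0f95c_al
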